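import Pool.Agent.MP_376d35_co.Glue

set_option autoImplicit false

open Set

namespace Pool.Agent.Recski

variable {α : Type}

theorem Graphic.of_circuit (n : ℕ) : ∀ (N : Matroid α), N.E.Finite → N.E.ncard = n →
    N.IsCircuit N.E → Graphic N := by
  induction n using Nat.strong_induction_on with
  | _ n ih =>
  intro N hfin hn hC
  have hne : N.E.Nonempty := hC.nonempty
  obtain ⟨x, hx⟩ := hne
  by_cases h1 : N.E = {x}
  · refine ⟨Unit, fun _ => (), fun _ => (), ?_⟩
    intro I hI
    rw [h1] at hI
    rcases subset_singleton_iff_eq.1 hI with rfl | rfl
    · simp
    · constructor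
      · intro h
        exact absurd (h1 ▸ hC).dep.not_indep (by simpa using h)
      · intro h
        exact absurd (h.ne_zero (mem_singleton x)) (by simp)
  · obtain ⟨a, ha, hax⟩ : ∃ a ∈ N.E, a ≠ x := by
      by_contra hcon
      push Not at hcon
      exact h1 (eq_singleton_iff_unique_mem.2 ⟨hx, hcon⟩)
    by_cases h2 : N.E = {x, a}
    · refine ⟨Bool, fun _ => true, fun _ => false, ?_⟩
      have hv : (Finsupp.single true (1 : ℚ) - Finsupp.single false (1 : ℚ)) ≠ 0 := by
        intro h
        have := DFunLike.congr_fun h true
        simp at this
      intro I hI
      rw [h2] at hI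
      rcases subset_pair_iff_eq.1 hI with rfl | rfl | rfl | rfl
      · simp
      · constructor
        · intro _
          rw [linearIndepOn_singleton_iff]
          exact hv
        · intro _
          apply hC.ssubset_indep
          rw [h2]
          refine ⟨by simp, ?_⟩
          intro h
          exact hax (h (by simp) : a ∈ ({x} : Set α))
      · constructor
        · intro _
          rw [linearIndepOn_singleton_iff]
          exact hv
        · intro _
          apply hC.ssubset_indep
          rw [h2]
          refine ⟨by simp, ?_⟩
          intro h
          exact hax (h (by simp) : x ∈ ({a} : Set α)).symm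
      · constructor
        · intro h
          exact absurd (h2 ▸ hC).dep.not_indep (by simpa using h)
        · intro h
          exfalso
          have := h.injOn (by simp : x ∈ ({x, a} : Set α)) (by simp : a ∈ ({x, a} : Set α)) rfl
          exact hax this.symm
    · -- at least three elements
      set B := N.E \ {x, a} with hB
      have hBne : B.Nonempty := by
        rw [hB, nonempty_iff_ne_empty]
        intro h
        apply h2
        apply Subset.antisymm (sdiff_eq_empty.1 h)
        exact insert_subset hx (singleton_subset_iff.2 ha)
      obtain ⟨c, hc⟩ := hBne
      have hcne : c ≠ x ∧ c ≠ a := by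
        constructor
        · rintro rfl; exact hc.2 (by simp)
        · rintro rfl; exact hc.2 (by simp)
      apply Graphic.glue (N := N) (A := {a}) (B := B) (x := x)
      · rw [disjoint_singleton_left]; rintro ⟨_, h⟩; exact h (by simp)
      · simpa using hax.symm
      · rintro ⟨_, h⟩; exact h (by simp)
      · ext y
        simp only [hB, mem_insert_iff, mem_union, mem_singleton_iff, mem_sdiff, not_or]
        constructor
        · intro hy; tauto
        · rintro (rfl | rfl | ⟨h, _⟩)
          exacts [hx, ha, h]
      · intro C hC' hxC
        exfalso
        have := hC'.eq_of_subset_isCircuit hC hC'.subset_ground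
        exact hxC (this ▸ hx)
      · have hss : ({a} : Set α) ⊂ N.E := by
          refine ⟨singleton_subset_iff.2 ha, fun h => hax (h hx : x ∈ ({a} : Set α)).symm⟩
        have hcc := hC.contract_isCircuit hss
        have hE : (N.contract {a}).E = N.E \ {a} := rfl
        rw [← hE] at hcc
        refine ih _ ?_ (N.contract {a}) ?_ rfl hcc
        · rw [← hn, hE]
          exact ncard_sdiff_singleton_lt_of_mem ha hfin
        · rw [hE]; exact hfin.sdiff
      · have hss : B ⊂ N.E := by
          refine ⟨sdiff_subset, fun h => (h hx).2 (by simp)⟩
        have hcc := hC.contract_isCircuit hss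
        have hE : (N.contract B).E = N.E \ B := rfl
        rw [← hE] at hcc
        refine ih _ ?_ (N.contract B) ?_ rfl hcc
        · rw [← hn, hE]
          apply ncard_lt_ncard _ hfin
          refine ⟨sdiff_subset, fun h => (h hc.1).2 hc⟩
        · rw [hE]; exact hfin.sdiff

end Pool.Agent.Recski
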