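import Mathlib

set_option autoImplicit false

open Finset

namespace Pool.Agent.Recski

variable {α : Type} [DecidableEq α]

/-- atoms of a binary code `Z` relative to a set `X` of coordinates -/
def Atom (Z : Finset α → Prop) (X A : Finset α) : Prop :=
  Z A ∧ A.Nonempty ∧ ∀ S, Z S → S.Nonempty → S \ X ⊆ A \ X → S = A

variable {Z : Finset α → Prop} {X : Finset α}

theorem mem_or_of_symmDiff {S T : Finset α} {e : α} (h : e ∈ S) : e ∈ T ∨ e ∈ symmDiff S T := by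
  by_cases h' : e ∈ T
  · exact Or.inl h'
  · exact Or.inr (mem_symmDiff.2 (Or.inl ⟨h, h'⟩))

theorem nonempty_sdiff (hX : ∀ S, Z S → S ⊆ X → S = ∅) {S : Finset α} (hS : Z S)
    (hne : S.Nonempty) : (S \ X).Nonempty := by
  rw [Finset.nonempty_iff_ne_empty]
  intro h
  rw [Finset.sdiff_eq_empty_iff_subset] at h
  exact hne.ne_empty (hX S hS h)

theorem eq_of_sdiff (hZ : ∀ S T, Z S → Z T → Z (symmDiff S T)) (hX : ∀ S, Z S → S ⊆ X → S = ∅)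
    {S T : Finset α} (hS : Z S) (hT : Z T) (h : S \ X = T \ X) : S = T := by
  have := hX _ (hZ S T hS hT) (by
    intro e he
    by_contra heX
    rw [mem_symmDiff] at he
    rcases he with ⟨h1, h2⟩ | ⟨h1, h2⟩
    · have : e ∈ T \ X := h ▸ (mem_sdiff.2 ⟨h1, heX⟩)
      exact h2 (mem_sdiff.1 this).1
    · have : e ∈ S \ X := h ▸ (mem_sdiff.2 ⟨h1, heX⟩)
      exact h2 (mem_sdiff.1 this).1)
  exact symmDiff_eq_bot.1 this

theorem exists_atom (hZ : ∀ S T, Z S → Z T → Z (symmDiff S T)) (hX : ∀ S, Z S → S ⊆ X → S = ∅)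
    (n : ℕ) : ∀ S, (S \ X).card = n → Z S → ∀ e ∈ S, ∃ A, Atom Z X A ∧ e ∈ A ∧ A \ X ⊆ S \ X := by
  induction n using Nat.strong_induction_on with
  | _ n ih =>
  intro S hn hS e he
  by_cases hat : Atom Z X S
  · exact ⟨S, hat, he, Subset.refl _⟩
  have hSne : S.Nonempty := ⟨e, he⟩
  have : ∃ T, Z T ∧ T.Nonempty ∧ T \ X ⊆ S \ X ∧ T ≠ S := by
    by_contra hcon
    push Not at hcon
    exact hat ⟨hS, hSne, fun T h1 h2 h3 => hcon T h1 h2 h3⟩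
  obtain ⟨T, hT, hTne, hTS, hne⟩ := this
  have hTS' : T \ X ≠ S \ X := fun h => hne (eq_of_sdiff hZ hX hT hS h)
  have hss : T \ X ⊂ S \ X := (Finset.ssubset_iff_subset_ne).2 ⟨hTS, hTS'⟩
  rcases mem_or_of_symmDiff (T := T) he with h | h
  · obtain ⟨A, hA, heA, hAS⟩ := ih _ (by rw [← hn]; exact card_lt_card hss) T rfl hT e h
    exact ⟨A, hA, heA, hAS.trans hTS⟩
  · have hsub : symmDiff S T \ X ⊆ S \ X := by
      intro y hy
      rw [mem_sdiff, mem_symmDiff] at hy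
      rcases hy with ⟨⟨h1, h2⟩ | ⟨h1, h2⟩, h3⟩
      · exact mem_sdiff.2 ⟨h1, h3⟩
      · exact hTS (mem_sdiff.2 ⟨h1, h3⟩)
    have hss2 : symmDiff S T \ X ⊂ S \ X := by
      refine (Finset.ssubset_iff_subset_ne).2 ⟨hsub, ?_⟩
      intro heq
      obtain ⟨y, hy⟩ := nonempty_sdiff hX hT hTne
      have hyS := hTS hy
      rw [← heq, mem_sdiff, mem_symmDiff] at hyS
      have h1 := (mem_sdiff.1 hy).1
      have h2 := (mem_sdiff.1 (hTS hy)).1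
      tauto
    obtain ⟨A, hA, heA, hAS⟩ := ih _ (by rw [← hn]; exact card_lt_card hss2) _ rfl (hZ S T hS hT) e h
    exact ⟨A, hA, heA, hAS.trans hsub⟩

/-- the common step: given two atoms meeting outside `X`, and an atom inside the symmetric
difference -/
theorem step (hZ : ∀ S T, Z S → Z T → Z (symmDiff S T))
    {A B D : Finset α} (hA : Atom Z X A) (hB : Atom Z X B) (hD : Atom Z X D)
    (hmeet : ((A ∩ B) \ X).Nonempty) (hDS : D \ X ⊆ symmDiff A B \ X)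
    (hne : (symmDiff (symmDiff A B) D).Nonempty) :
    ((D ∩ B) \ X).Nonempty ∧ ((D ∪ B) \ X) ⊂ ((A ∪ B) \ X) := by
  obtain ⟨c, hc⟩ := hmeet
  rw [mem_sdiff, mem_inter] at hc
  constructor
  · by_contra hcon
    rw [Finset.not_nonempty_iff_eq_empty] at hcon
    have hsub : D \ X ⊆ A \ X := by
      intro y hy
      have h1 := hDS hy
      rw [mem_sdiff, mem_symmDiff] at h1
      rcases h1 with ⟨⟨h1, h2⟩ | ⟨h1, h2⟩, h3⟩
      · exact mem_sdiff.2 ⟨h1, h3⟩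
      · exfalso
        have : y ∈ (D ∩ B) \ X := mem_sdiff.2 ⟨mem_inter.2 ⟨(mem_sdiff.1 hy).1, h1⟩, h3⟩
        rw [hcon] at this
        exact absurd this (Finset.notMem_empty _)
    have hDA : D = A := hA.2.2 D hD.1 hD.2.1 hsub
    rw [hDA] at hDS
    have := hDS (mem_sdiff.2 ⟨hc.1.1, hc.2⟩)
    rw [mem_sdiff, mem_symmDiff] at this
    tauto
  · rw [Finset.ssubset_iff_subset_ne]
    constructor
    · intro y hy
      rw [mem_sdiff, mem_union] at hy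
      rcases hy with ⟨h1 | h1, h3⟩
      · have h4 := hDS (mem_sdiff.2 ⟨h1, h3⟩)
        rw [mem_sdiff, mem_symmDiff] at h4
        rw [mem_sdiff, mem_union]
        tauto
      · exact mem_sdiff.2 ⟨mem_union_right _ h1, h3⟩
    · intro heq
      have hsub : symmDiff (symmDiff A B) D \ X ⊆ B \ X := by
        intro y hy
        rw [mem_sdiff, mem_symmDiff, mem_symmDiff] at hy
        rw [mem_sdiff]
        refine ⟨?_, hy.2⟩
        by_contra hyB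
        have hyD : y ∈ D ∨ y ∉ D := em _
        rcases hyD with hyD | hyD
        · have h4 := hDS (mem_sdiff.2 ⟨hyD, hy.2⟩)
          rw [mem_sdiff, mem_symmDiff] at h4
          tauto
        · have hyA : y ∈ A := by tauto
          have : y ∈ (A ∪ B) \ X := mem_sdiff.2 ⟨mem_union_left _ hyA, hy.2⟩
          rw [← heq, mem_sdiff, mem_union] at this
          tauto
      have hSB := hB.2.2 _ (hZ _ _ (hZ _ _ hA.1 hB.1) hD.1) hne hsub
      have hcB : c ∈ symmDiff (symmDiff A B) D := by rw [hSB]; exact hc.1.2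
      rw [mem_symmDiff, mem_symmDiff] at hcB
      have hcD : c ∈ D := by tauto
      have h4 := hDS (mem_sdiff.2 ⟨hcD, hc.2⟩)
      rw [mem_sdiff, mem_symmDiff] at h4
      tauto

variable {x : α}

/-- Claim 1 -/
theorem claim1 (hZ : ∀ S T, Z S → Z T → Z (symmDiff S T)) (hX : ∀ S, Z S → S ⊆ X → S = ∅)
    (hmin : ∀ A, Atom Z X A → x ∈ A → X ⊆ A) {y : α} (hy : y ∈ X)
    (n : ℕ) : ∀ A B, ((A ∪ B) \ X).card = n → Atom Z X A → Atom Z X B → x ∈ A → x ∉ B → y ∈ B →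
      ¬ ((A ∩ B) \ X).Nonempty := by
  induction n using Nat.strong_induction_on with
  | _ n ih =>
  intro A B hn hA hB hxA hxB hyB hmeet
  have hyA : y ∈ A := hmin A hA hxA hy
  have hxS : x ∈ symmDiff A B := mem_symmDiff.2 (Or.inl ⟨hxA, hxB⟩)
  have hyS : y ∉ symmDiff A B := by rw [mem_symmDiff]; tauto
  obtain ⟨D, hD, hxD, hDS⟩ := exists_atom hZ hX _ _ rfl (hZ A B hA.1 hB.1) x hxS
  have hyD : y ∈ D := hmin D hD hxD hy
  have hne : (symmDiff (symmDiff A B) D).Nonempty := ⟨y, mem_symmDiff.2 (Or.inr ⟨hyD, hyS⟩)⟩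
  obtain ⟨h1, h2⟩ := step hZ hA hB hD hmeet hDS hne
  exact ih _ (by rw [← hn]; exact card_lt_card h2) D B rfl hD hB hxD hxB hyB h1

/-- Claim 2 -/
theorem claim2 (hZ : ∀ S T, Z S → Z T → Z (symmDiff S T)) (hX : ∀ S, Z S → S ⊆ X → S = ∅)
    (hmin : ∀ A, Atom Z X A → x ∈ A → X ⊆ A) {y : α} (hy : y ∈ X) {B : Finset α}
    (hB : Atom Z X B) (hxB : x ∉ B) (hyB : y ∈ B)
    (n : ℕ) : ∀ A D, ((A ∪ D) \ X).card = n → Atom Z X A → Atom Z X D → x ∈ A → x ∉ D → y ∉ D →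
      ((D ∩ A) \ X).Nonempty → ¬ ((D ∩ B) \ X).Nonempty := by
  induction n using Nat.strong_induction_on with
  | _ n ih =>
  intro A D hn hA hD hxA hxD hyD hDA hDB
  obtain ⟨b, hb⟩ := hDB
  rw [mem_sdiff, mem_inter] at hb
  have hbA : b ∉ A := fun h => claim1 hZ hX hmin hy _ A B rfl hA hB hxA hxB hyB
    ⟨b, mem_sdiff.2 ⟨mem_inter.2 ⟨h, hb.1.2⟩, hb.2⟩⟩
  have hbS : b ∈ symmDiff D A := mem_symmDiff.2 (Or.inl ⟨hb.1.1, hbA⟩)
  obtain ⟨D', hD', hbD', hDS⟩ := exists_atom hZ hX _ _ rfl (hZ D A hD.1 hA.1) b hbS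
  have hxD' : x ∉ D' := fun h => claim1 hZ hX hmin hy _ D' B rfl hD' hB h hxB hyB
    ⟨b, mem_sdiff.2 ⟨mem_inter.2 ⟨hbD', hb.1.2⟩, hb.2⟩⟩
  have hxS : x ∈ symmDiff D A := mem_symmDiff.2 (Or.inr ⟨hxA, hxD⟩)
  have hne : (symmDiff (symmDiff D A) D').Nonempty := ⟨x, mem_symmDiff.2 (Or.inl ⟨hxS, hxD'⟩)⟩
  obtain ⟨h1, h2⟩ := step hZ hD hA hD' hDA hDS hne
  have hyD' : y ∉ D' := fun h => claim1 hZ hX hmin hy _ A D' rfl hA hD' hxA hxD' h
    (by rw [inter_comm]; exact h1)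
  refine ih _ ?_ A D' rfl hA hD' hxA hxD' hyD' h1
    ⟨b, mem_sdiff.2 ⟨mem_inter.2 ⟨hbD', hb.1.2⟩, hb.2⟩⟩
  rw [← hn, union_comm A D', union_comm A D]
  exact card_lt_card h2

/-- connectivity is transitive -/
theorem atom_trans (hZ : ∀ S T, Z S → Z T → Z (symmDiff S T)) (hX : ∀ S, Z S → S ⊆ X → S = ∅)
    {e g : α} (n : ℕ) : ∀ A B, ((A ∪ B) \ X).card = n → Atom Z X A → Atom Z X B → e ∈ A →
      g ∈ B → ((A ∩ B) \ X).Nonempty → ∃ G, Atom Z X G ∧ e ∈ G ∧ g ∈ G := by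
  induction n using Nat.strong_induction_on with
  | _ n ih =>
  intro A B hn hA hB heA hgB hmeet
  by_cases heB : e ∈ B
  · exact ⟨B, hB, heB, hgB⟩
  by_cases hgA : g ∈ A
  · exact ⟨A, hA, heA, hgA⟩
  have heS : e ∈ symmDiff A B := mem_symmDiff.2 (Or.inl ⟨heA, heB⟩)
  have hgS : g ∈ symmDiff A B := mem_symmDiff.2 (Or.inr ⟨hgB, hgA⟩)
  obtain ⟨D, hD, heD, hDS⟩ := exists_atom hZ hX _ _ rfl (hZ A B hA.1 hB.1) e heS
  by_cases hgD : g ∈ D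
  · exact ⟨D, hD, heD, hgD⟩
  have hne : (symmDiff (symmDiff A B) D).Nonempty := ⟨g, mem_symmDiff.2 (Or.inl ⟨hgS, hgD⟩)⟩
  obtain ⟨h1, h2⟩ := step hZ hA hB hD hmeet hDS hne
  exact ih _ (by rw [← hn]; exact card_lt_card h2) D B rfl hD hB heD hgB h1

/-- the component set `Q` -/
def QSet (Z : Finset α → Prop) (X : Finset α) (x : α) : Set α :=
  {e | e ∉ X ∧ ∃ D A, Atom Z X D ∧ Atom Z X A ∧ x ∈ A ∧ e ∈ D ∧ ((D ∩ A) \ X).Nonempty}

theorem Q_closed (hZ : ∀ S T, Z S → Z T → Z (symmDiff S T)) (hX : ∀ S, Z S → S ⊆ X → S = ∅)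
    {G : Finset α} (hG : Atom Z X G) {g : α} (hgG : g ∈ G) (hgQ : g ∈ QSet Z X x) :
    ∀ h ∈ G, h ∉ X → h ∈ QSet Z X x := by
  intro h hhG hhX
  obtain ⟨hgX, D, A, hD, hA, hxA, hgD, a, ha⟩ := hgQ
  rw [mem_sdiff, mem_inter] at ha
  obtain ⟨G', hG', hhG', haG'⟩ := atom_trans hZ hX _ G D rfl hG hD hhG ha.1.1
    ⟨g, mem_sdiff.2 ⟨mem_inter.2 ⟨hgG, hgD⟩, hgX⟩⟩
  exact ⟨hhX, G', A, hG', hA, hxA, hhG', ⟨a, mem_sdiff.2 ⟨mem_inter.2 ⟨haG', ha.1.2⟩, ha.2⟩⟩⟩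

theorem Q_noX (hZ : ∀ S T, Z S → Z T → Z (symmDiff S T)) (hX : ∀ S, Z S → S ⊆ X → S = ∅)
    (hmin : ∀ A, Atom Z X A → x ∈ A → X ⊆ A)
    {G : Finset α} (hG : Atom Z X G) {g : α} (hgG : g ∈ G) (hgQ : g ∈ QSet Z X x)
    (hxG : x ∉ G) : ∀ y ∈ X, y ∉ G := by
  intro y hy hyG
  obtain ⟨hgX, D, A, hD, hA, hxA, hgD, hDA⟩ := hgQ
  have hDG : ((D ∩ G) \ X).Nonempty := ⟨g, mem_sdiff.2 ⟨mem_inter.2 ⟨hgD, hgG⟩, hgX⟩⟩
  have hxD : x ∉ D := fun h => claim1 hZ hX hmin hy _ D G rfl hD hG h hxG hyG hDG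
  have hyD : y ∉ D := fun h => claim1 hZ hX hmin hy _ A D rfl hA hD hxA hxD h
    (by rw [inter_comm]; exact hDA)
  exact claim2 hZ hX hmin hy hG hxG hyG _ A D rfl hA hD hxA hxD hyD hDA hDG

theorem decomp (hZ : ∀ S T, Z S → Z T → Z (symmDiff S T)) (hZ0 : Z ∅)
    (hX : ∀ S, Z S → S ⊆ X → S = ∅) (hmin : ∀ A, Atom Z X A → x ∈ A → X ⊆ A)
    (n : ℕ) : ∀ S, (S \ X).card = n → Z S → ∃ S₁ S₀, Z S₁ ∧ Z S₀ ∧ S = symmDiff S₁ S₀ ∧
      (∀ e ∈ S₁, e ∉ X → e ∈ QSet Z X x) ∧ (∀ e ∈ S₀, e ∉ QSet Z X x) ∧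
      ((∀ y ∈ X, y ∉ S₁) ∨ X ⊆ S₁) ∧ x ∉ S₀ := by
  induction n using Nat.strong_induction_on with
  | _ n ih =>
  intro S hn hS
  by_cases hSe : S = ∅
  · exact ⟨∅, ∅, hZ0, hZ0, by rw [hSe]; simp, by simp, by simp, by simp, by simp⟩
  have hSne : S.Nonempty := Finset.nonempty_iff_ne_empty.2 hSe
  obtain ⟨e, he⟩ := nonempty_sdiff hX hS hSne
  rw [mem_sdiff] at he
  obtain ⟨A, hA, heA, hAS⟩ := exists_atom hZ hX _ S rfl hS e he.1
  have hsub : symmDiff S A \ X ⊂ S \ X := by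
    rw [Finset.ssubset_iff_subset_ne]
    constructor
    · intro y hy
      rw [mem_sdiff, mem_symmDiff] at hy
      rcases hy with ⟨⟨h1, h2⟩ | ⟨h1, h2⟩, h3⟩
      · exact mem_sdiff.2 ⟨h1, h3⟩
      · exact hAS (mem_sdiff.2 ⟨h1, h3⟩)
    · intro heq
      have : e ∈ S \ X := mem_sdiff.2 he
      rw [← heq, mem_sdiff, mem_symmDiff] at this
      tauto
  obtain ⟨T₁, T₀, hT₁, hT₀, hT, hQ₁, hQ₀, hor, hxT₀⟩ :=
    ih _ (by rw [← hn]; exact card_lt_card hsub) _ rfl (hZ S A hS hA.1)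
  have hSA : S = symmDiff (symmDiff S A) A := (symmDiff_symmDiff_cancel_right A S).symm
  by_cases heQ : e ∈ QSet Z X x
  · refine ⟨symmDiff T₁ A, T₀, hZ _ _ hT₁ hA.1, hT₀, ?_, ?_, hQ₀, ?_, hxT₀⟩
    · rw [hSA, hT, symmDiff_right_comm]
    · intro y hy hyX
      rw [mem_symmDiff] at hy
      rcases hy with ⟨h1, _⟩ | ⟨h1, _⟩
      · exact hQ₁ y h1 hyX
      · exact Q_closed hZ hX hA heA heQ y h1 hyX
    · by_cases hxA : x ∈ A
      · have hXA := hmin A hA hxA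
        rcases hor with h | h
        · right
          intro y hy
          exact mem_symmDiff.2 (Or.inr ⟨hXA hy, h y hy⟩)
        · left
          intro y hy
          rw [mem_symmDiff]
          have h1 := hXA hy
          have h2 := h hy
          tauto
      · have hno := Q_noX hZ hX hmin hA heA heQ hxA
        rcases hor with h | h
        · left
          intro y hy
          rw [mem_symmDiff]
          have h1 := hno y hy
          have h2 := h y hy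
          tauto
        · right
          intro y hy
          exact mem_symmDiff.2 (Or.inl ⟨h hy, hno y hy⟩)
  · refine ⟨T₁, symmDiff T₀ A, hT₁, hZ _ _ hT₀ hA.1, ?_, hQ₁, ?_, hor, ?_⟩
    · rw [hSA, hT, symmDiff_assoc]
    · intro y hy hyQ
      rw [mem_symmDiff] at hy
      rcases hy with ⟨h1, _⟩ | ⟨h1, _⟩
      · exact hQ₀ y h1 hyQ
      · exact heQ (Q_closed hZ hX hA h1 hyQ e heA he.2)
    · rw [mem_symmDiff]
      rintro (⟨h1, _⟩ | ⟨h1, _⟩)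
      · exact hxT₀ h1
      · exact heQ ⟨he.2, A, A, hA, hA, h1, heA, ⟨e, mem_sdiff.2 ⟨mem_inter.2 ⟨heA, heA⟩, he.2⟩⟩⟩

/-- the conclusion for a code word avoiding `x` -/
theorem code_sep (hZ : ∀ S T, Z S → Z T → Z (symmDiff S T)) (hZ0 : Z ∅)
    (hX : ∀ S, Z S → S ⊆ X → S = ∅) (hmin : ∀ A, Atom Z X A → x ∈ A → X ⊆ A) (hx : x ∈ X)
    {S : Finset α} (hS : Z S) (hxS : x ∉ S) :
    ∃ S₁, Z S₁ ∧ S₁ ⊆ S ∧ (∀ e ∈ S₁, e ∈ QSet Z X x) ∧ (∀ e ∈ S, e ∉ S₁ → e ∉ QSet Z X x) := by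
  obtain ⟨S₁, S₀, hS₁, hS₀, hSe, hQ₁, hQ₀, hor, hxS₀⟩ := decomp hZ hZ0 hX hmin _ S rfl hS
  have hxS₁ : x ∉ S₁ := by
    intro h
    apply hxS
    rw [hSe, mem_symmDiff]
    exact Or.inl ⟨h, hxS₀⟩
  have hno : ∀ y ∈ X, y ∉ S₁ := by
    rcases hor with h | h
    · exact h
    · exact absurd (h hx) hxS₁
  have hQ : ∀ e ∈ S₁, e ∈ QSet Z X x := fun e he => hQ₁ e he (fun h => hno e h he)
  refine ⟨S₁, hS₁, ?_, hQ, ?_⟩
  · intro e he
    rw [hSe, mem_symmDiff]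
    exact Or.inl ⟨he, fun h => hQ₀ e h (hQ e he)⟩
  · intro e he heS₁
    rw [hSe, mem_symmDiff] at he
    rcases he with ⟨h, _⟩ | ⟨h, _⟩
    · exact absurd h heS₁
    · exact hQ₀ e h

theorem Q_nonempty (hZ : ∀ S T, Z S → Z T → Z (symmDiff S T))
    (hX : ∀ S, Z S → S ⊆ X → S = ∅) {S : Finset α} (hS : Z S) (hxS : x ∈ S) :
    (QSet Z X x).Nonempty := by
  obtain ⟨A, hA, hxA, _⟩ := exists_atom hZ hX _ S rfl hS x hxS
  obtain ⟨e, he⟩ := nonempty_sdiff hX hA.1 hA.2.1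
  rw [mem_sdiff] at he
  exact ⟨e, he.2, A, A, hA, hA, hxA, he.1, ⟨e, mem_sdiff.2 ⟨mem_inter.2 ⟨he.1, he.1⟩, he.2⟩⟩⟩

end Pool.Agent.Recski
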