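import Pool.Agent.MP_376d35_co.UnionRank
import Pool.Agent.MP_376d35_co.Code

set_option autoImplicit false

open Set

namespace Pool.Agent.Recski

variable {α : Type}

section cyc

variable {W : Type} [AddCommGroup W] [Module (ZMod 2) W]

/-- cycles of a binary representation -/
def Cyc (N : Matroid α) (f : α → W) (S : Finset α) : Prop :=
  (S : Set α) ⊆ N.E ∧ ∑ e ∈ S, f e = 0

theorem cyc_symmDiff [DecidableEq α] {N : Matroid α} {f : α → W} (S T : Finset α)
    (hS : Cyc N f S) (hT : Cyc N f T) : Cyc N f (symmDiff S T) := by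
  refine ⟨?_, ?_⟩
  · intro e he
    rw [Finset.mem_coe, Finset.mem_symmDiff] at he
    rcases he with ⟨h, _⟩ | ⟨h, _⟩
    · exact hS.1 h
    · exact hT.1 h
  · have h1 : ∑ e ∈ symmDiff S T, f e = ∑ e ∈ S \ T, f e + ∑ e ∈ T \ S, f e := by
      rw [symmDiff_def]
      exact Finset.sum_union (by
        rw [Finset.disjoint_left]
        intro e he he'
        exact (Finset.mem_sdiff.1 he').2 (Finset.mem_sdiff.1 he).1)
    have h2 : ∑ e ∈ S \ T, f e + ∑ e ∈ S ∩ T, f e = ∑ e ∈ S, f e := by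
      rw [add_comm]; exact Finset.sum_inter_add_sum_sdiff _ _ _
    have h3 : ∑ e ∈ T \ S, f e + ∑ e ∈ T ∩ S, f e = ∑ e ∈ T, f e := by
      rw [add_comm]; exact Finset.sum_inter_add_sum_sdiff _ _ _
    rw [hS.2] at h2
    rw [hT.2, Finset.inter_comm] at h3
    rw [h1]
    have e1 : ∑ e ∈ S \ T, f e = - ∑ e ∈ S ∩ T, f e := eq_neg_of_add_eq_zero_left h2
    have e2 : ∑ e ∈ T \ S, f e = - ∑ e ∈ S ∩ T, f e := eq_neg_of_add_eq_zero_left h3
    rw [e1, e2]
    exact ZModModule.add_self _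

theorem cyc_dep {N : Matroid α} {f : α → W} (hf : Rep (ZMod 2) N f) {S : Finset α}
    (hS : Cyc N f S) (hne : S.Nonempty) : ¬ N.Indep (S : Set α) := by
  intro h
  rw [hf _ hS.1, linearIndepOn_finset_iff] at h
  obtain ⟨e, he⟩ := hne
  have := h (fun _ => 1) (by simpa using hS.2) e he
  exact one_ne_zero this

theorem circuit_cyc {N : Matroid α} (hfin : N.E.Finite) {f : α → W} (hf : Rep (ZMod 2) N f)
    {C : Set α} (hC : N.IsCircuit C) : ∃ S : Finset α, (S : Set α) = C ∧ Cyc N f S := by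
  classical
  have hCf : C.Finite := hfin.subset hC.subset_ground
  have hdep : ¬ LinearIndepOn (ZMod 2) f ((hCf.toFinset : Finset α) : Set α) := by
    rw [← hf _ (by simpa using hC.subset_ground)]
    simpa using hC.not_indep
  rw [linearIndepOn_finset_iff] at hdep
  push Not at hdep
  obtain ⟨g, hg, i, hi, hgi⟩ := hdep
  let S : Finset α := hCf.toFinset.filter (fun e => g e ≠ 0)
  have hSC : (S : Set α) ⊆ C := by
    intro e he
    have : e ∈ hCf.toFinset := (Finset.mem_filter.1 (Finset.mem_coe.1 he)).1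
    simpa using this
  have hsum : ∑ e ∈ S, f e = 0 := by
    rw [← hg, Finset.sum_filter]
    apply Finset.sum_congr rfl
    intro e _
    by_cases h : g e = 0
    · simp [h]
    · have h1 : g e = 1 := by
        have := ZMod.val_lt (g e)
        revert h
        generalize g e = a
        revert a
        decide
      simp [h1]
  have hcyc : Cyc N f S := ⟨hSC.trans hC.subset_ground, hsum⟩
  have hne : S.Nonempty := ⟨i, Finset.mem_filter.2 ⟨hi, hgi⟩⟩
  have hd := cyc_dep hf hcyc hne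
  exact ⟨S, hC.eq_of_not_indep_subset hd hSC, hcyc⟩

/-- **separation lemma** -/
theorem exists_sep {N : Matroid α} (hfin : N.E.Finite) {f : α → W} (hf : Rep (ZMod 2) N f)
    {X : Set α} (hX : N.Indep X) {x : α} (hx : x ∈ X)
    (hmin : ∀ A, N.IsCircuit A → (∀ C', N.IsCircuit C' → C' ⊆ X ∪ A → ¬ C' ⊆ X → A \ X ⊆ C') →
      x ∈ A → X ⊆ A)
    (hxC : ∃ C, N.IsCircuit C ∧ x ∈ C) :
    ∃ Q, Q ⊆ N.E ∧ Q.Nonempty ∧ Disjoint Q X ∧ ∀ C, N.IsCircuit C → x ∉ C → C ⊆ Q ∨ Disjoint C Q := by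
  classical
  have hXf : X.Finite := hfin.subset hX.subset_ground
  obtain ⟨X', rfl⟩ : ∃ X' : Finset α, (X' : Set α) = X := ⟨hXf.toFinset, by simp⟩
  set Z : Finset α → Prop := Cyc N f with hZdef
  have hZ : ∀ S T, Z S → Z T → Z (symmDiff S T) := fun S T => cyc_symmDiff S T
  have hZ0 : Z ∅ := ⟨by simp, by simp⟩
  have hZX : ∀ S, Z S → S ⊆ X' → S = ∅ := by
    intro S hS hSX
    by_contra hne
    exact cyc_dep hf hS (Finset.nonempty_iff_ne_empty.2 hne)
      (hX.subset (by exact_mod_cast hSX))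
  -- atoms are circuits
  have hat : ∀ A, Atom Z X' A → N.IsCircuit (A : Set α) ∧
      ∀ C', N.IsCircuit C' → C' ⊆ (X' : Set α) ∪ A → ¬ C' ⊆ (X' : Set α) → C' = A := by
    intro A hA
    have key : ∀ C', N.IsCircuit C' → C' ⊆ (X' : Set α) ∪ A → C' = A := by
      intro C' hC' hsub
      obtain ⟨S, rfl, hS⟩ := circuit_cyc hfin hf hC'
      have hSne : S.Nonempty := by simpa using hC'.nonempty
      have : S = A := by
        apply hA.2.2 S hS hSne
        intro e he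
        rw [Finset.mem_sdiff] at he ⊢
        refine ⟨?_, he.2⟩
        rcases hsub (Finset.mem_coe.2 he.1) with h | h
        · exact absurd h he.2
        · exact h
      rw [this]
    refine ⟨?_, fun C' h1 h2 _ => key C' h1 h2⟩
    have hd := cyc_dep hf hA.1 hA.2.1
    obtain ⟨C, hCA, hC⟩ := ((Matroid.not_indep_iff hA.1.1).1 hd).exists_isCircuit_subset
    have := key C hC (hCA.trans subset_union_right)
    exact this ▸ hC
  have hmin' : ∀ A, Atom Z X' A → x ∈ A → X' ⊆ A := by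
    intro A hA hxA
    have := hmin A (hat A hA).1 (fun C' h1 h2 h3 => by
      rw [(hat A hA).2 C' h1 h2 h3]; exact sdiff_subset) hxA
    exact_mod_cast this
  have hx' : x ∈ X' := hx
  refine ⟨QSet Z X' x, ?_, ?_, ?_, ?_⟩
  · rintro e ⟨_, D, A, hD, _, _, heD, _⟩
    exact hD.1.1 heD
  · obtain ⟨C, hC, hxC⟩ := hxC
    obtain ⟨S, rfl, hS⟩ := circuit_cyc hfin hf hC
    exact Q_nonempty hZ hZX hS (by simpa using hxC)
  · rw [Set.disjoint_left]
    intro e he heX
    exact he.1 (by simpa using heX)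
  · intro C hC hxC
    obtain ⟨S, rfl, hS⟩ := circuit_cyc hfin hf hC
    obtain ⟨S₁, hS₁, hsub, h1, h2⟩ := code_sep hZ hZ0 hZX hmin' hx' hS (by simpa using hxC)
    by_cases hne : S₁.Nonempty
    · left
      have hd := cyc_dep hf hS₁ hne
      have := hC.eq_of_not_indep_subset hd (by exact_mod_cast hsub)
      intro e he
      rw [← this] at he
      exact h1 e (by simpa using he)
    · right
      rw [Finset.not_nonempty_iff_eq_empty] at hne
      rw [Set.disjoint_left]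
      intro e he heQ
      exact h2 e (by simpa using he) (by rw [hne]; simp) heQ

end cyc

/-- the series class of `x` -/
def ser (N : Matroid α) (x : α) : Set α := {z | z ∈ N.E ∧ ∀ C, N.IsCircuit C → (x ∈ C ↔ z ∈ C)}

theorem mem_ser_of {N : Matroid α} {x q : α} (hq : ∃ C, N.IsCircuit C ∧ q ∈ C)
    (h : ∀ C, N.IsCircuit C → q ∈ C → x ∈ C) : q ∈ ser N x := by
  obtain ⟨C', hC', hqC'⟩ := hq
  refine ⟨hC'.subset_ground hqC', ?_⟩
  intro C hC
  refine ⟨fun hxC => ?_, h C hC⟩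
  by_contra hqC
  obtain ⟨D, hDs, hD, hqD⟩ := hC'.strong_elimination hC (h C' hC' hqC') hxC hqC' hqC
  exact (hDs (h D hD hqD)).2 rfl

/-- the starting full set -/
theorem exists_X0 {N M₁ M₂ : Matroid α} (hU : IsUnion N M₁ M₂)
    (hconn : ∀ S, S ⊆ N.E → S.Nonempty → S ≠ N.E → ∃ C, N.IsCircuit C ∧ ¬ C ⊆ S ∧ (C ∩ S).Nonempty)
    (hnc : ¬ N.IsCircuit N.E) {x : α} (hx : ∃ C, N.IsCircuit C ∧ x ∈ C) :
    ∃ X, N.Indep X ∧ Full N M₁ M₂ X ∧ ser N x ⊆ X := by
  obtain ⟨C₁, hC₁, hxC₁⟩ := hx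
  have hfin := hU.fin
  have hC₁E : C₁ ≠ N.E := fun h => hnc (h ▸ hC₁)
  let F : Set (Set α) := {C | N.IsCircuit C ∧ ¬ C ⊆ C₁ ∧ (C ∩ C₁).Nonempty}
  have hF : F.Nonempty := hconn C₁ hC₁.subset_ground ⟨x, hxC₁⟩ hC₁E
  obtain ⟨C₂, hC₂F, hC₂min⟩ := (measure (fun C : Set α => (C \ C₁).ncard)).wf.has_min F hF
  have hC₂min' : ∀ C, N.IsCircuit C → ¬ C ⊆ C₁ → (C ∩ C₁).Nonempty →
      (C₂ \ C₁).ncard ≤ (C \ C₁).ncard := by
    intro C h1 h2 h3
    exact not_lt.1 (hC₂min C ⟨h1, h2, h3⟩)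
  -- make it pass through x
  obtain ⟨C₃, hC₃, hC₃n, hxC₃, hC₃min⟩ : ∃ C₃, N.IsCircuit C₃ ∧ ¬ C₃ ⊆ C₁ ∧ x ∈ C₃ ∧
      ∀ C, N.IsCircuit C → ¬ C ⊆ C₁ → (C ∩ C₁).Nonempty → (C₃ \ C₁).ncard ≤ (C \ C₁).ncard := by
    by_cases hxC₂ : x ∈ C₂
    · exact ⟨C₂, hC₂F.1, hC₂F.2.1, hxC₂, hC₂min'⟩
    · obtain ⟨e, he2, he1⟩ := hC₂F.2.2
      obtain ⟨D, hDs, hD, hxD⟩ := hC₁.strong_elimination hC₂F.1 he1 he2 hxC₁ hxC₂
      have hDn : ¬ D ⊆ C₁ := by
        intro h
        have := hD.eq_of_subset_isCircuit hC₁ h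
        rw [this] at hDs
        exact (hDs he1).2 rfl
      refine ⟨D, hD, hDn, hxD, ?_⟩
      intro C h1 h2 h3
      refine le_trans ?_ (hC₂min' C h1 h2 h3)
      apply ncard_le_ncard _ ((hfin.subset hC₂F.1.subset_ground).sdiff)
      rintro y ⟨hy1, hy2⟩
      rcases (hDs hy1).1 with h | h
      · exact absurd h hy2
      · exact ⟨h, hy2⟩
  have hmod := rk_union_circuit hfin hC₁.subset_ground hC₃ hC₃n (by
    intro C' hC' hsub hn
    by_cases hm : (C' ∩ C₁).Nonempty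
    · have hs : C' \ C₁ ⊆ C₃ \ C₁ := by
        rintro y ⟨hy1, hy2⟩
        rcases hsub hy1 with h | h
        · exact absurd h hy2
        · exact ⟨h, hy2⟩
      have := eq_of_subset_of_ncard_le hs (hC₃min C' hC' hn hm)
        ((hfin.subset hC₃.subset_ground).sdiff)
      rw [← this]; exact sdiff_subset
    · have hs : C' ⊆ C₃ := by
        intro y hy
        rcases hsub hy with h | h
        · exact absurd ⟨y, hy, h⟩ hm
        · exact h
      rw [hC'.eq_of_subset_isCircuit hC₃ hs]; exact sdiff_subset)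
  refine ⟨C₁ ∩ C₃, ?_, hU.full_inter (hU.full_circuit hC₁) (hU.full_circuit hC₃) hmod, ?_⟩
  · apply hC₃.ssubset_indep
    refine ⟨inter_subset_right, ?_⟩
    intro h
    exact hC₃n (h.trans inter_subset_left)
  · rintro z ⟨_, hz⟩
    exact ⟨(hz C₁ hC₁).1 hxC₁, (hz C₃ hC₃).1 hxC₃⟩

/-- **series classes are full** unless there is a proper separation. -/
theorem ser_full {N M₁ M₂ : Matroid α} (hU : IsUnion N M₁ M₂) (hB : Bin N)
    (hconn : ∀ S, S ⊆ N.E → S.Nonempty → S ≠ N.E → ∃ C, N.IsCircuit C ∧ ¬ C ⊆ S ∧ (C ∩ S).Nonempty)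
    (hcov : ∀ x ∈ N.E, ∃ C, N.IsCircuit C ∧ x ∈ C)
    (hnc : ¬ N.IsCircuit N.E)
    (hno : ∀ x A B, Disjoint A B → x ∉ A → x ∉ B → N.E = insert x (A ∪ B) →
      (∀ C, N.IsCircuit C → x ∉ C → C ⊆ A ∨ C ⊆ B) → N.Indep A ∨ N.Indep B)
    {x : α} (hxE : x ∈ N.E) : Full N M₁ M₂ (ser N x) ∧ N.Indep (ser N x) := by
  have hfin := hU.fin
  obtain ⟨W, i1, i2, f, hf⟩ := hB
  have hxC := hcov x hxE
  obtain ⟨X₀, hX₀⟩ := exists_X0 hU hconn hnc hxC
  let F : Set (Set α) := {X | N.Indep X ∧ Full N M₁ M₂ X ∧ ser N x ⊆ X}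
  obtain ⟨X, ⟨hXi, hXf, hXs⟩, hXmin⟩ :=
    (measure (fun C : Set α => C.ncard)).wf.has_min F ⟨X₀, hX₀⟩
  have hXfin : X.Finite := hfin.subset hXi.subset_ground
  have hxser : x ∈ ser N x := ⟨hxE, fun _ _ => Iff.rfl⟩
  have hxX : x ∈ X := hXs hxser
  by_cases hXZ : X ⊆ ser N x
  · have : X = ser N x := Subset.antisymm hXZ hXs
    rw [← this]; exact ⟨hXf, hXi⟩
  exfalso
  obtain ⟨y, hyX, hyn⟩ := not_subset.1 hXZ
  have hmin : ∀ A, N.IsCircuit A → (∀ C', N.IsCircuit C' → C' ⊆ X ∪ A → ¬ C' ⊆ X → A \ X ⊆ C') →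
      x ∈ A → X ⊆ A := by
    intro A hA hAm hxA
    have hAX : ¬ A ⊆ X := fun h => hA.not_indep (hXi.subset h)
    have hmod := rk_union_circuit hfin hXi.subset_ground hA hAX hAm
    have hfull := hU.full_inter hXf (hU.full_circuit hA) hmod
    have hmem : X ∩ A ∈ F := by
      refine ⟨hXi.subset inter_subset_left, hfull, ?_⟩
      intro z hz
      exact ⟨hXs hz, (hz.2 A hA).1 hxA⟩
    have hle : X.ncard ≤ (X ∩ A).ncard := not_lt.1 (hXmin _ hmem)
    have := eq_of_subset_of_ncard_le inter_subset_left hle hXfin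
    exact inter_eq_left.1 this
  obtain ⟨Q, hQE, hQne, hQX, hQ⟩ := exists_sep hfin hf hXi hxX hmin hxC
  have hxQ : x ∉ Q := fun h => (Set.disjoint_left.1 hQX) h hxX
  have hyQ : y ∉ Q := fun h => (Set.disjoint_left.1 hQX) h hyX
  have hyx : y ≠ x := fun h => hyn (h ▸ hxser)
  have hE : N.E = insert x (Q ∪ ((N.E \ {x}) \ Q)) := by
    ext z
    simp only [mem_insert_iff, mem_union, mem_sdiff, mem_singleton_iff]
    constructor
    · intro hz; tauto
    · rintro (rfl | h | h)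
      · exact hxE
      · exact hQE h
      · exact h.1.1
  have hsep : ∀ C, N.IsCircuit C → x ∉ C → C ⊆ Q ∨ C ⊆ ((N.E \ {x}) \ Q) := by
    intro C hC hxC
    rcases hQ C hC hxC with h | h
    · exact Or.inl h
    · right
      intro z hz
      exact ⟨⟨hC.subset_ground hz, fun h' => hxC (h' ▸ hz)⟩, fun h' => (Set.disjoint_left.1 h) hz h'⟩
  rcases hno x Q ((N.E \ {x}) \ Q) disjoint_sdiff_right hxQ (fun h => h.1.2 rfl) hE hsep with h | h
  · obtain ⟨q, hq⟩ := hQne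
    have hqser : q ∈ ser N x := by
      apply mem_ser_of (hcov q (hQE hq))
      intro C hC hqC
      by_contra hxC
      rcases hsep C hC hxC with h' | h'
      · exact hC.not_indep (h.subset h')
      · exact (h' hqC).2 hq
    exact (Set.disjoint_left.1 hQX) hq (hXs hqser)
  · apply hyn
    apply mem_ser_of (hcov y (hXi.subset_ground hyX))
    intro C hC hyC
    by_contra hxC
    rcases hsep C hC hxC with h' | h'
    · exact hyQ (h' hyC)
    · exact hC.not_indep (h.subset h')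

end Pool.Agent.Recski
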