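import Pool.Agent.MP_376d35_co.Rep

set_option autoImplicit false

open Set

namespace Pool.Agent.Recski

variable {α : Type}

section LinAlg

variable {K : Type} [Field K] {W₁ W₂ : Type} [AddCommGroup W₁] [Module K W₁]
  [AddCommGroup W₂] [Module K W₂]

theorem image_union_prod {a : α → W₁} {b : α → W₂} {v : α → W₁ × W₂} {A B : Set α}
    (ha : ∀ e ∈ A, v e = (a e, 0)) (hb : ∀ e ∈ B, v e = (0, b e)) :
    v '' (A ∪ B) = LinearMap.inl K W₁ W₂ '' (a '' A) ∪ LinearMap.inr K W₁ W₂ '' (b '' B) := by
  rw [image_union, image_image, image_image]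
  congr 1
  · exact image_congr (fun e he => by rw [ha e he]; rfl)
  · exact image_congr (fun e he => by rw [hb e he]; rfl)

theorem span_prod {a : α → W₁} {b : α → W₂} {v : α → W₁ × W₂} {A B : Set α}
    (ha : ∀ e ∈ A, v e = (a e, 0)) (hb : ∀ e ∈ B, v e = (0, b e)) :
    Submodule.span K (v '' (A ∪ B)) =
      (Submodule.span K (a '' A)).prod (Submodule.span K (b '' B)) := by
  rw [image_union_prod (K := K) ha hb, LinearMap.span_inl_union_inr]

theorem indep_prod {a : α → W₁} {b : α → W₂} {v : α → W₁ × W₂} {A B : Set α}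
    (hd : Disjoint A B)
    (ha : ∀ e ∈ A, v e = (a e, 0)) (hb : ∀ e ∈ B, v e = (0, b e)) :
    LinearIndepOn K v (A ∪ B) ↔ LinearIndepOn K a A ∧ LinearIndepOn K b B := by
  rw [linearIndepOn_union_iff hd]
  have h1 : LinearIndepOn K v A ↔ LinearIndepOn K a A := by
    have := (LinearMap.inl K W₁ W₂).linearIndependent_iff (v := fun e : A => a e)
      (LinearMap.ker_eq_bot.2 LinearMap.inl_injective)
    unfold LinearIndepOn
    rw [← this]
    apply linearIndependent_equiv' (Equiv.refl _)
    ext1 e
    simp [ha e e.2]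
  have h2 : LinearIndepOn K v B ↔ LinearIndepOn K b B := by
    have := (LinearMap.inr K W₁ W₂).linearIndependent_iff (v := fun e : B => b e)
      (LinearMap.ker_eq_bot.2 LinearMap.inr_injective)
    unfold LinearIndepOn
    rw [← this]
    apply linearIndependent_equiv' (Equiv.refl _)
    ext1 e
    simp [hb e e.2]
  rw [h1, h2]
  refine ⟨fun h => ⟨h.1, h.2.1⟩, fun h => ⟨h.1, h.2, ?_⟩⟩
  rw [Submodule.disjoint_def]
  intro y hy1 hy2
  have e1 : y.2 = 0 := by
    have : Submodule.span K (v '' A) ≤ LinearMap.ker (LinearMap.snd K W₁ W₂) := by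
      rw [Submodule.span_le]
      rintro _ ⟨e, he, rfl⟩
      simp [ha e he]
    exact this hy1
  have e2 : y.1 = 0 := by
    have : Submodule.span K (v '' B) ≤ LinearMap.ker (LinearMap.fst K W₁ W₂) := by
      rw [Submodule.span_le]
      rintro _ ⟨e, he, rfl⟩
      simp [hb e he]
    exact this hy2
  exact Prod.ext e2 e1

end LinAlg

/-- total sum of a chain -/
noncomputable def tot (V : Type) : (V →₀ ℚ) →ₗ[ℚ] ℚ := Finsupp.linearCombination ℚ (fun _ => (1 : ℚ))

theorem tot_diff {V : Type} (a b : V) :
    tot V (Finsupp.single a (1 : ℚ) - Finsupp.single b (1 : ℚ)) = 0 := by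
  simp [tot]

/-- gluing map on chains -/
noncomputable def glueMap {V₁ V₂ V : Type} (κ₁ : V₁ → V) (κ₂ : V₂ → V) :
    ((V₁ →₀ ℚ) × (V₂ →₀ ℚ)) →ₗ[ℚ] (V →₀ ℚ) :=
  LinearMap.coprod (Finsupp.lmapDomain ℚ ℚ κ₁) (Finsupp.lmapDomain ℚ ℚ κ₂)

theorem glueMap_apply {V₁ V₂ V : Type} (κ₁ : V₁ → V) (κ₂ : V₂ → V) (s : V₁ →₀ ℚ) (t : V₂ →₀ ℚ) :
    glueMap κ₁ κ₂ (s, t) = Finsupp.mapDomain κ₁ s + Finsupp.mapDomain κ₂ t := rfl

theorem mapDomain_apply_of_unique {V₁ V : Type} (κ : V₁ → V) (s : V₁ →₀ ℚ) (v : V) (a : V₁)
    (h : ∀ b, κ b = v ↔ b = a) : Finsupp.mapDomain κ s v = s a := by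
  classical
  have key : ∀ s : V₁ →₀ ℚ, Finsupp.mapDomain κ s v = s a := by
    intro s
    induction s using Finsupp.induction_linear with
    | zero => simp
    | add f g hf hg => rw [Finsupp.mapDomain_add, Finsupp.add_apply, hf, hg, Finsupp.add_apply]
    | single b c =>
      rw [Finsupp.mapDomain_single, Finsupp.single_apply, Finsupp.single_apply]
      simp only [h b]
  exact key s

theorem mapDomain_apply_of_none {V₁ V : Type} (κ : V₁ → V) (s : V₁ →₀ ℚ) (v : V)
    (h : ∀ b, κ b ≠ v) : Finsupp.mapDomain κ s v = 0 := by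
  classical
  have key : ∀ s : V₁ →₀ ℚ, Finsupp.mapDomain κ s v = 0 := by
    intro s
    induction s using Finsupp.induction_linear with
    | zero => simp
    | add f g hf hg => rw [Finsupp.mapDomain_add, Finsupp.add_apply, hf, hg, add_zero]
    | single b c =>
      rw [Finsupp.mapDomain_single, Finsupp.single_apply, if_neg (h b)]
  exact key s

open Classical in
/-- attach `V₂` to `V₁` by identifying `p : V₂` with `q : V₁`. -/
noncomputable def attach {V₁ V₂ : Type} (q : V₁) (p : V₂) : V₂ → V₁ ⊕ V₂ :=
  fun v => if v = p then Sum.inl q else Sum.inr v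

theorem glue_inj {V₁ V₂ : Type} (q : V₁) (p : V₂) (s : V₁ →₀ ℚ) (t : V₂ →₀ ℚ)
    (ht : tot V₂ t = 0) (h : glueMap (Sum.inl : V₁ → V₁ ⊕ V₂) (attach q p) (s, t) = 0) :
    s = 0 ∧ t = 0 := by
  classical
  rw [glueMap_apply] at h
  have ht0 : ∀ v, v ≠ p → t v = 0 := by
    intro v hv
    have h1 := DFunLike.congr_fun h (Sum.inr v)
    rw [Finsupp.add_apply, mapDomain_apply_of_none _ _ _ (by intro b; simp), zero_add,
      mapDomain_apply_of_unique (attach q p) t (Sum.inr v) v] at h1
    · simpa using h1
    · intro b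
      unfold attach
      by_cases hb : b = p
      · simp only [hb, if_true]
        constructor
        · intro h; cases h
        · intro h; exact absurd h.symm hv
      · simp only [hb, if_false, Sum.inr.injEq]
  have ht1 : t = Finsupp.single p (t p) := by
    ext v
    rw [Finsupp.single_apply]
    by_cases hv : p = v
    · rw [if_pos hv, hv]
    · rw [if_neg hv, ht0 v (fun h => hv h.symm)]
  have ht2 : t = 0 := by
    rw [ht1] at ht
    simp [tot] at ht
    rw [ht1, ht, Finsupp.single_zero]
  refine ⟨?_, ht2⟩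
  rw [ht2, Finsupp.mapDomain_zero, add_zero] at h
  exact Finsupp.mapDomain_injective Sum.inl_injective (by rw [h, Finsupp.mapDomain_zero])

/-- `N` is the direct sum of two graphic matroids -/
theorem Graphic.of_sum {N P P' : Matroid α} {S : Set α} (hP : Graphic P) (hP' : Graphic P')
    (h1 : N.E ∩ S ⊆ P.E) (h2 : N.E \ S ⊆ P'.E)
    (h : ∀ I, I ⊆ N.E → (N.Indep I ↔ P.Indep (I ∩ S) ∧ P'.Indep (I \ S))) : Graphic N := by
  classical
  obtain ⟨V₁, u₁, w₁, hr₁⟩ := hP
  obtain ⟨V₂, u₂, w₂, hr₂⟩ := hP'
  refine ⟨V₁ ⊕ V₂, fun e => if e ∈ S then Sum.inl (u₁ e) else Sum.inr (u₂ e),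
    fun e => if e ∈ S then Sum.inl (w₁ e) else Sum.inr (w₂ e), ?_⟩
  intro I hI
  set a : α → (V₁ →₀ ℚ) := fun e => Finsupp.single (u₁ e) (1 : ℚ) - Finsupp.single (w₁ e) (1 : ℚ) with ha
  set b : α → (V₂ →₀ ℚ) := fun e => Finsupp.single (u₂ e) (1 : ℚ) - Finsupp.single (w₂ e) (1 : ℚ) with hb
  let v : α → (V₁ →₀ ℚ) × (V₂ →₀ ℚ) := fun e => if e ∈ S then (a e, 0) else (0, b e)
  have hker : LinearMap.ker (glueMap (Sum.inl : V₁ → V₁ ⊕ V₂) (Sum.inr : V₂ → V₁ ⊕ V₂)) = ⊥ := by
    rw [LinearMap.ker_eq_bot']
    rintro ⟨s, t⟩ hst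
    rw [glueMap_apply] at hst
    have hs : s = 0 := by
      ext x
      have := DFunLike.congr_fun hst (Sum.inl x)
      rw [Finsupp.add_apply, mapDomain_apply_of_unique _ _ _ x (by intro b; simp),
        mapDomain_apply_of_none _ _ _ (by intro b; simp), add_zero] at this
      exact this
    have ht : t = 0 := by
      ext x
      have := DFunLike.congr_fun hst (Sum.inr x)
      rw [Finsupp.add_apply, mapDomain_apply_of_unique _ t _ x (by intro b; simp),
        mapDomain_apply_of_none _ s _ (by intro b; simp), zero_add] at this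
      exact this
    rw [hs, ht]; rfl
  rw [h I hI, hr₁ _ ((inter_subset_inter_left _ hI).trans h1), hr₂ _ ((sdiff_subset_sdiff_left hI).trans h2)]
  have hd : Disjoint (I ∩ S) (I \ S) := disjoint_sdiff_inter.symm
  rw [← indep_prod (v := v) hd (fun e he => by simp [v, he.2]) (fun e he => by simp [v, he.2]),
    inter_union_sdiff]
  unfold LinearIndepOn
  rw [← (glueMap (Sum.inl : V₁ → V₁ ⊕ V₂) (Sum.inr : V₂ → V₁ ⊕ V₂)).linearIndependent_iff
    (v := fun e : I => v e) hker]
  apply linearIndependent_equiv' (Equiv.refl _)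
  ext1 e
  simp only [Function.comp_apply, Equiv.refl_apply, v]
  by_cases he : (e : α) ∈ S
  · simp only [he, if_true, glueMap_apply, ha, Finsupp.mapDomain_zero, add_zero]
    have := (Finsupp.lmapDomain ℚ ℚ (Sum.inl : V₁ → V₁ ⊕ V₂)).map_sub
      (Finsupp.single (u₁ e) (1 : ℚ)) (Finsupp.single (w₁ e) (1 : ℚ))
    simp only [Finsupp.lmapDomain_apply, Finsupp.mapDomain_single] at this
    exact this.symm
  · simp only [he, if_false, glueMap_apply, hb, Finsupp.mapDomain_zero, zero_add]
    have := (Finsupp.lmapDomain ℚ ℚ (Sum.inr : V₂ → V₁ ⊕ V₂)).map_sub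
      (Finsupp.single (u₂ e) (1 : ℚ)) (Finsupp.single (w₂ e) (1 : ℚ))
    simp only [Finsupp.lmapDomain_apply, Finsupp.mapDomain_single] at this
    exact this.symm

theorem indep_iff_of_sep {N : Matroid α} {A B : Set α} {x : α}
    (hE : N.E = insert x (A ∪ B))
    (hsep : ∀ C, N.IsCircuit C → x ∉ C → C ⊆ A ∨ C ⊆ B) {I : Set α} (hI : I ⊆ A ∪ B)
    (hxI : x ∉ I) :
    N.Indep I ↔ N.Indep (I ∩ A) ∧ N.Indep (I ∩ B) := by
  refine ⟨fun h => ⟨h.subset inter_subset_left, h.subset inter_subset_left⟩, fun h => ?_⟩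
  by_contra hcon
  have hIE : I ⊆ N.E := by rw [hE]; exact hI.trans (subset_insert _ _)
  obtain ⟨C, hCI, hC⟩ := ((Matroid.not_indep_iff hIE).1 hcon).exists_isCircuit_subset
  rcases hsep C hC (fun h => hxI (hCI h)) with hCA | hCB
  · exact hC.not_indep (h.1.subset (subset_inter hCI hCA))
  · exact hC.not_indep (h.2.subset (subset_inter hCI hCB))

theorem Graphic.glue {N : Matroid α} {A B : Set α} {x : α} (hAB : Disjoint A B)
    (hxA : x ∉ A) (hxB : x ∉ B) (hE : N.E = insert x (A ∪ B))
    (hsep : ∀ C, N.IsCircuit C → x ∉ C → C ⊆ A ∨ C ⊆ B)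
    (hGA : Graphic (N.contract A)) (hGB : Graphic (N.contract B)) : Graphic N := by
  classical
  obtain ⟨V₁, u₁, w₁, hr₁⟩ := hGB
  obtain ⟨V₂, u₂, w₂, hr₂⟩ := hGA
  set a : α → (V₁ →₀ ℚ) := fun e => Finsupp.single (u₁ e) (1 : ℚ) - Finsupp.single (w₁ e) (1 : ℚ) with ha
  set b : α → (V₂ →₀ ℚ) := fun e => Finsupp.single (u₂ e) (1 : ℚ) - Finsupp.single (w₂ e) (1 : ℚ) with hb
  let v : α → (V₁ →₀ ℚ) × (V₂ →₀ ℚ) := fun e => if e = x then (-(a e), b e) else
    if e ∈ A then (a e, 0) else (0, b e)
  have hxE : x ∈ N.E := by rw [hE]; exact mem_insert _ _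
  have hAE : A ⊆ N.E := by rw [hE]; exact subset_union_left.trans (subset_insert _ _)
  have hBE : B ⊆ N.E := by rw [hE]; exact subset_union_right.trans (subset_insert _ _)
  have hBA : ∀ e ∈ B, e ∉ A := fun e he h' => (disjoint_left.1 hAB) h' he
  have hva : ∀ I, ∀ e ∈ I ∩ A, v e = (a e, 0) := by
    rintro I e ⟨_, he⟩
    have : e ≠ x := fun h => hxA (h ▸ he)
    simp [v, this, he]
  have hvb : ∀ I, ∀ e ∈ I ∩ B, v e = (0, b e) := by
    rintro I e ⟨_, he⟩
    have : e ≠ x := fun h => hxB (h ▸ he)
    simp [v, this, hBA e he]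
  have hdisj : ∀ I : Set α, Disjoint (I ∩ A) (I ∩ B) := fun I =>
    hAB.mono inter_subset_right inter_subset_right
  -- contraction characterisations
  have hcB : ∀ I, I ⊆ A → ((N.contract B).Indep I ↔ N.Indep I) := by
    intro I hI
    obtain ⟨J, hJ⟩ := N.exists_isBasis B
    have hd : Disjoint B I := (hAB.mono_left hI).symm
    rw [hJ.contract_indep_iff, and_iff_left hd,
      indep_iff_of_sep hE hsep (union_subset_union hI hJ.subset)
        (by rintro (h | h); exacts [hxA (hI h), hxB (hJ.subset h)])]
    have e1 : (I ∪ J) ∩ A = I := by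
      rw [union_inter_distrib_right, inter_eq_self_of_subset_left hI]
      rw [((hAB.symm.mono_left hJ.subset).inter_eq), union_empty]
    have e2 : (I ∪ J) ∩ B = J := by
      rw [union_inter_distrib_right, inter_eq_self_of_subset_left hJ.subset]
      rw [((hAB.mono_left hI).inter_eq), empty_union]
    rw [e1, e2, and_iff_left hJ.indep]
  have hcA : ∀ I, I ⊆ B → ((N.contract A).Indep I ↔ N.Indep I) := by
    intro I hI
    obtain ⟨J, hJ⟩ := N.exists_isBasis A
    have hd : Disjoint A I := (hAB.symm.mono_left hI).symm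
    rw [hJ.contract_indep_iff, and_iff_left hd,
      indep_iff_of_sep hE hsep (by rw [union_comm A B]; exact (union_subset_union hI hJ.subset))
        (by rintro (h | h); exacts [hxB (hI h), hxA (hJ.subset h)])]
    have e1 : (I ∪ J) ∩ B = I := by
      rw [union_inter_distrib_right, inter_eq_self_of_subset_left hI]
      rw [((hAB.mono_left hJ.subset).inter_eq), union_empty]
    have e2 : (I ∪ J) ∩ A = J := by
      rw [union_inter_distrib_right, inter_eq_self_of_subset_left hJ.subset]
      rw [((hAB.symm.mono_left hI).inter_eq), empty_union]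
    rw [e1, e2, and_iff_right hJ.indep]
  have hgA : ∀ I, I ⊆ A → (N.Indep I ↔ LinearIndepOn ℚ a I) := by
    intro I hI
    rw [← hcB I hI]
    apply hr₁
    rw [Matroid.contract_ground]
    exact subset_sdiff.2 ⟨hI.trans hAE, hAB.mono_left hI⟩
  have hgB : ∀ I, I ⊆ B → (N.Indep I ↔ LinearIndepOn ℚ b I) := by
    intro I hI
    rw [← hcA I hI]
    apply hr₂
    rw [Matroid.contract_ground]
    exact subset_sdiff.2 ⟨hI.trans hBE, hAB.symm.mono_left hI⟩
  have hbase : ∀ I, I ⊆ A ∪ B → (N.Indep I ↔ LinearIndepOn ℚ v I) := by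
    intro I hI
    have hxI : x ∉ I := fun h => by
      rcases hI h with h | h
      exacts [hxA h, hxB h]
    have hIeq : I = (I ∩ A) ∪ (I ∩ B) := by
      rw [← inter_union_distrib_left, inter_eq_self_of_subset_left hI]
    rw [indep_iff_of_sep hE hsep hI hxI, hgA _ inter_subset_right, hgB _ inter_subset_right,
      ← indep_prod (hdisj I) (hva I) (hvb I), ← hIeq]
  have hrep : Rep ℚ N v := by
    intro I hI
    rw [hE] at hI
    by_cases hxI : x ∈ I
    · set I' := I \ {x} with hI'
      have hI'AB : I' ⊆ A ∪ B := by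
        rintro e ⟨heI, hex⟩
        rcases hI heI with h | h
        · exact absurd h hex
        · exact h
      have hxI' : x ∉ I' := fun h => h.2 rfl
      have hIins : I = insert x I' := by
        rw [hI', insert_sdiff_singleton, insert_eq_of_mem hxI]
      have hI'E : I' ⊆ N.E := by rw [hE]; exact hI'AB.trans (subset_insert _ _)
      have hI'eq : I' = (I' ∩ A) ∪ (I' ∩ B) := by
        rw [← inter_union_distrib_left, inter_eq_self_of_subset_left hI'AB]
      rw [hIins, linearIndepOn_insert hxI', ← hbase I' hI'AB]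
      have hspan : v x ∈ Submodule.span ℚ (v '' I') ↔
          a x ∈ Submodule.span ℚ (a '' (I' ∩ A)) ∧ b x ∈ Submodule.span ℚ (b '' (I' ∩ B)) := by
        conv_lhs => rw [hI'eq, span_prod (hva I') (hvb I')]
        rw [Submodule.mem_prod]
        simp [v]
      rw [hspan]
      constructor
      · intro hind
        have hind' : N.Indep I' := hind.subset (subset_insert _ _)
        refine ⟨hind', ?_⟩
        rintro ⟨h1, h2⟩
        -- extend to bases
        obtain ⟨JA, hJA, hIJA⟩ := (hind'.subset (inter_subset_left : I' ∩ A ⊆ I')).subset_isBasis_of_subset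
          (inter_subset_right : I' ∩ A ⊆ A) hAE
        obtain ⟨JB, hJB, hIJB⟩ := (hind'.subset (inter_subset_left : I' ∩ B ⊆ I')).subset_isBasis_of_subset
          (inter_subset_right : I' ∩ B ⊆ B) hBE
        have hJJ : N.Indep (JA ∪ JB) := by
          rw [indep_iff_of_sep hE hsep (union_subset_union hJA.subset hJB.subset)
            (by rintro (h | h); exacts [hxA (hJA.subset h), hxB (hJB.subset h)])]
          constructor
          · apply hJA.indep.subset
            rintro e ⟨h | h, h'⟩
            · exact h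
            · exact absurd h' (hBA e (hJB.subset h))
          · apply hJB.indep.subset
            rintro e ⟨h | h, h'⟩
            · exact absurd (hJA.subset h) (hBA e h')
            · exact h
        -- x in closure of (I'∩A) ∪ JB
        have c1 : x ∈ N.closure ((I' ∩ A) ∪ JB) := by
          by_contra hcon
          have hi : N.Indep ((I' ∩ A) ∪ JB) := hJJ.subset (union_subset_union_left _ hIJA)
          have hins : N.Indep (insert x ((I' ∩ A) ∪ JB)) := by
            rw [hi.insert_indep_iff_of_notMem (by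
              rintro (h | h); exacts [hxA h.2, hxB (hJB.subset h)])]
            exact ⟨hxE, hcon⟩
          have hc : (N.contract B).Indep (insert x (I' ∩ A)) := by
            rw [hJB.contract_indep_iff]
            refine ⟨by rw [insert_union]; exact hins, ?_⟩
            rw [disjoint_insert_right]
            exact ⟨hxB, hAB.symm.mono_right inter_subset_right⟩
          rw [hr₁ _ (by
            rw [Matroid.contract_ground]
            apply subset_sdiff.2
            refine ⟨insert_subset hxE (inter_subset_right.trans hAE), ?_⟩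
            rw [disjoint_insert_left]
            exact ⟨hxB, hAB.mono_left inter_subset_right⟩),
            linearIndepOn_insert (by rintro ⟨_, h⟩; exact hxA h)] at hc
          exact hc.2 h1
        have c2 : x ∈ N.closure (JA ∪ (I' ∩ B)) := by
          by_contra hcon
          have hi : N.Indep (JA ∪ (I' ∩ B)) := hJJ.subset (union_subset_union_right _ hIJB)
          have hins : N.Indep (insert x (JA ∪ (I' ∩ B))) := by
            rw [hi.insert_indep_iff_of_notMem (by
              rintro (h | h); exacts [hxA (hJA.subset h), hxB h.2])]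
            exact ⟨hxE, hcon⟩
          have hc : (N.contract A).Indep (insert x (I' ∩ B)) := by
            rw [hJA.contract_indep_iff]
            refine ⟨by rw [insert_union, union_comm]; exact hins, ?_⟩
            rw [disjoint_insert_right]
            exact ⟨hxA, hAB.mono_right inter_subset_right⟩
          rw [hr₂ _ (by
            rw [Matroid.contract_ground]
            apply subset_sdiff.2
            refine ⟨insert_subset hxE (inter_subset_right.trans hBE), ?_⟩
            rw [disjoint_insert_left]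
            exact ⟨hxA, hAB.symm.mono_left inter_subset_right⟩),
            linearIndepOn_insert (by rintro ⟨_, h⟩; exact hxB h)] at hc
          exact hc.2 h2
        have hcl := (hJJ.subset (union_subset
            (union_subset_union_left _ hIJA) (union_subset_union_right _ hIJB) :
              ((I' ∩ A) ∪ JB) ∪ (JA ∪ (I' ∩ B)) ⊆ JA ∪ JB)).closure_inter_eq_inter_closure
        have hx : x ∈ N.closure (((I' ∩ A) ∪ JB) ∩ (JA ∪ (I' ∩ B))) := by
          rw [hcl]; exact ⟨c1, c2⟩
        have hsub : ((I' ∩ A) ∪ JB) ∩ (JA ∪ (I' ∩ B)) ⊆ I' := by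
          rintro e ⟨h | h, h' | h'⟩
          · exact h.1
          · exact h.1
          · exact absurd (hJA.subset h') (hBA e (hJB.subset h))
          · exact h'.1
        have hx' : x ∈ N.closure I' := N.closure_subset_closure hsub hx
        rw [hind'.insert_indep_iff_of_notMem hxI'] at hind
        exact hind.2 hx'
      · rintro ⟨hind', hn⟩
        rw [not_and_or] at hn
        rcases hn with hn | hn
        · have hc : (N.contract B).Indep (insert x (I' ∩ A)) := by
            rw [hr₁ _ (by
              rw [Matroid.contract_ground]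
              apply subset_sdiff.2
              refine ⟨insert_subset hxE (inter_subset_right.trans hAE), ?_⟩
              rw [disjoint_insert_left]
              exact ⟨hxB, hAB.mono_left inter_subset_right⟩),
              linearIndepOn_insert (by rintro ⟨_, h⟩; exact hxA h)]
            exact ⟨(hgA _ inter_subset_right).1 (hind'.subset inter_subset_left), hn⟩
          obtain ⟨JB, hJB, hIJB⟩ := (hind'.subset (inter_subset_left : I' ∩ B ⊆ I')).subset_isBasis_of_subset
            (inter_subset_right : I' ∩ B ⊆ B) hBE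
          rw [hJB.contract_indep_iff] at hc
          apply hc.1.subset
          rw [insert_union]
          apply insert_subset_insert
          conv_lhs => rw [hI'eq]
          exact union_subset_union_right _ hIJB
        · have hc : (N.contract A).Indep (insert x (I' ∩ B)) := by
            rw [hr₂ _ (by
              rw [Matroid.contract_ground]
              apply subset_sdiff.2
              refine ⟨insert_subset hxE (inter_subset_right.trans hBE), ?_⟩
              rw [disjoint_insert_left]
              exact ⟨hxA, hAB.symm.mono_left inter_subset_right⟩),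
              linearIndepOn_insert (by rintro ⟨_, h⟩; exact hxB h)]
            exact ⟨(hgB _ inter_subset_right).1 (hind'.subset inter_subset_left), hn⟩
          obtain ⟨JA, hJA, hIJA⟩ := (hind'.subset (inter_subset_left : I' ∩ A ⊆ I')).subset_isBasis_of_subset
            (inter_subset_right : I' ∩ A ⊆ A) hAE
          rw [hJA.contract_indep_iff] at hc
          apply hc.1.subset
          rw [insert_union]
          apply insert_subset_insert
          conv_lhs => rw [hI'eq]
          rw [union_comm]
          exact union_subset_union_right _ hIJA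
    · have hIAB : I ⊆ A ∪ B := by
        intro e he
        rcases hI he with h | h
        · exact absurd (h ▸ he) hxI
        · exact h
      exact hbase I hIAB
  -- now the graph
  let κ₁ : V₁ → V₁ ⊕ V₂ := Sum.inl
  let κ₂ : V₂ → V₁ ⊕ V₂ := attach (u₁ x) (u₂ x)
  have hκ : κ₂ (u₂ x) = κ₁ (u₁ x) := by simp [κ₂, κ₁, attach]
  refine ⟨V₁ ⊕ V₂, fun e => if e = x then κ₁ (w₁ x) else if e ∈ A then κ₁ (u₁ e) else κ₂ (u₂ e),
    fun e => if e = x then κ₂ (w₂ x) else if e ∈ A then κ₁ (w₁ e) else κ₂ (w₂ e), ?_⟩
  intro I hI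
  rw [hrep I hI]
  unfold LinearIndepOn
  have hdisjker : Disjoint (Submodule.span ℚ (range fun e : I => v e))
      (LinearMap.ker (glueMap κ₁ κ₂)) := by
    rw [Submodule.disjoint_def]
    rintro ⟨s, t⟩ hst1 hst2
    have htot : tot V₂ t = 0 := by
      have hle : Submodule.span ℚ (range fun e : I => v e) ≤
          LinearMap.ker ((tot V₂).comp (LinearMap.snd ℚ (V₁ →₀ ℚ) (V₂ →₀ ℚ))) := by
        rw [Submodule.span_le]
        rintro _ ⟨e, rfl⟩
        simp only [SetLike.mem_coe, LinearMap.mem_ker, LinearMap.comp_apply, LinearMap.snd_apply, v]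
        split_ifs
        · exact tot_diff _ _
        · simp
        · exact tot_diff _ _
      exact hle hst1
    obtain ⟨hs, ht⟩ := glue_inj (u₁ x) (u₂ x) s t htot hst2
    rw [hs, ht]; rfl
  rw [← (glueMap κ₁ κ₂).linearIndependent_iff_of_disjoint hdisjker]
  apply linearIndependent_equiv' (Equiv.refl _)
  ext1 e
  simp only [Function.comp_apply, Equiv.refl_apply, v]
  have hm1 : ∀ p q : V₁, Finsupp.mapDomain κ₁ (Finsupp.single p (1 : ℚ) - Finsupp.single q (1 : ℚ)) =
      Finsupp.single (κ₁ p) (1 : ℚ) - Finsupp.single (κ₁ q) (1 : ℚ) := by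
    intro p q
    have := (Finsupp.lmapDomain ℚ ℚ κ₁).map_sub (Finsupp.single p (1 : ℚ)) (Finsupp.single q (1 : ℚ))
    simpa only [Finsupp.lmapDomain_apply, Finsupp.mapDomain_single] using this
  have hm2 : ∀ p q : V₂, Finsupp.mapDomain κ₂ (Finsupp.single p (1 : ℚ) - Finsupp.single q (1 : ℚ)) =
      Finsupp.single (κ₂ p) (1 : ℚ) - Finsupp.single (κ₂ q) (1 : ℚ) := by
    intro p q
    have := (Finsupp.lmapDomain ℚ ℚ κ₂).map_sub (Finsupp.single p (1 : ℚ)) (Finsupp.single q (1 : ℚ))
    simpa only [Finsupp.lmapDomain_apply, Finsupp.mapDomain_single] using this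
  by_cases hex : (e : α) = x
  · simp only [hex, if_true, glueMap_apply, ha, hb]
    rw [neg_sub, hm1, hm2, hκ]
    abel
  · by_cases heA : (e : α) ∈ A
    · simp only [hex, heA, if_true, if_false, glueMap_apply, ha, Finsupp.mapDomain_zero, add_zero]
      rw [hm1]
    · simp only [hex, heA, if_false, glueMap_apply, hb, Finsupp.mapDomain_zero, zero_add]
      rw [hm2]

end Pool.Agent.Recski
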