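import Pool.Agent.MP_376d35_co.Reduce

set_option autoImplicit false

open Set

namespace Pool.Agent.Recski

variable {α : Type}

theorem graphic_empty {N : Matroid α} (h : N.E = ∅) : Graphic N := by
  refine ⟨Unit, fun _ => (), fun _ => (), ?_⟩
  intro I hI
  rw [h, subset_empty_iff] at hI
  subst hI
  simp

theorem graphic_indep_singleton {N : Matroid α} {x : α} (h : N.E = {x}) (hx : N.Indep {x}) :
    Graphic N := by
  refine ⟨Bool, fun _ => true, fun _ => false, ?_⟩
  have hv : (Finsupp.single true (1 : ℚ) - Finsupp.single false (1 : ℚ)) ≠ 0 := by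
    intro h
    have := DFunLike.congr_fun h true
    simp at this
  intro I hI
  rw [h] at hI
  rcases subset_singleton_iff_eq.1 hI with rfl | rfl
  · simp
  · constructor
    · intro _
      rw [linearIndepOn_singleton_iff]
      exact hv
    · intro _; exact hx

/-- the dependent part of a set -/
def cyc (N : Matroid α) (A : Set α) : Set α := {f | ∃ C, N.IsCircuit C ∧ f ∈ C ∧ C ⊆ A}

theorem cyc_subset {N : Matroid α} {A : Set α} : cyc N A ⊆ A := by
  rintro f ⟨C, _, hf, hCA⟩
  exact hCA hf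

theorem cyc_nonempty {N : Matroid α} {A : Set α} (hA : A ⊆ N.E) (h : ¬ N.Indep A) :
    (cyc N A).Nonempty := by
  obtain ⟨C, hCA, hC⟩ := ((Matroid.not_indep_iff hA).1 h).exists_isCircuit_subset
  obtain ⟨f, hf⟩ := hC.nonempty
  exact ⟨f, C, hC, hf, hCA⟩

theorem full_cyc {N M₁ M₂ : Matroid α} (hU : IsUnion N M₁ M₂) (A : Set α) :
    Full N M₁ M₂ (cyc N A) := by
  apply hU.full_cyclic
  rintro f ⟨C, hC, hf, hCA⟩
  exact ⟨C, hC, hf, fun g hg => ⟨C, hC, hg, hCA⟩⟩

theorem main_aux (n : ℕ) : ∀ N M₁ M₂ : Matroid α, N.E.ncard = n → IsUnion N M₁ M₂ →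
    Graphic M₁ → Graphic M₂ → Bin N → Graphic N := by
  induction n using Nat.strong_induction_on with
  | _ n ih =>
  intro N M₁ M₂ hn hU hG₁ hG₂ hB
  have hfin := hU.fin
  -- induction hypothesis for contractions by full sets
  have ihc : ∀ T, T ⊆ N.E → T.Nonempty → Full N M₁ M₂ T → Graphic (N.contract T) := by
    intro T hT hTne hTf
    refine ih _ ?_ (N.contract T) (M₁.contract T) (M₂.contract T) rfl (hU.contract hT hTf)
      (hG₁.contract T) (hG₂.contract T) (hB.contract hT)
    rw [← hn, Matroid.contract_ground]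
    obtain ⟨t, ht⟩ := hTne
    exact ncard_lt_ncard ⟨sdiff_subset, fun h => (h (hT ht)).2 ht⟩ hfin
  by_cases hempty : N.E = ∅
  · exact graphic_empty hempty
  have hne : N.E.Nonempty := nonempty_iff_ne_empty.2 hempty
  by_cases hcirc : N.IsCircuit N.E
  · exact Graphic.of_circuit _ N hfin rfl hcirc
  -- disconnected case
  by_cases hdis : ∃ S, S ⊆ N.E ∧ S.Nonempty ∧ S ≠ N.E ∧
      ∀ C, N.IsCircuit C → (C ∩ S).Nonempty → C ⊆ S
  · obtain ⟨S, hSE, hSne, hSn, hS⟩ := hdis
    have hSss : S ⊂ N.E := ⟨hSE, fun h => hSn (Subset.antisymm hSE h)⟩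
    have g1 : Graphic (N.restrict S) := by
      refine ih _ ?_ (N.restrict S) (M₁.restrict S) (M₂.restrict S) rfl (hU.restrict hSE)
        (hG₁.restrict S) (hG₂.restrict S) (hB.restrict hSE)
      rw [← hn]
      exact ncard_lt_ncard hSss hfin
    have g2 : Graphic (N.restrict (N.E \ S)) := by
      refine ih _ ?_ (N.restrict (N.E \ S)) (M₁.restrict (N.E \ S)) (M₂.restrict (N.E \ S)) rfl
        (hU.restrict sdiff_subset) (hG₁.restrict _) (hG₂.restrict _) (hB.restrict sdiff_subset)
      rw [← hn]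
      obtain ⟨s, hs⟩ := hSne
      exact ncard_lt_ncard ⟨sdiff_subset, fun h => (h (hSE hs)).2 hs⟩ hfin
    refine Graphic.of_sum (S := S) g1 g2 (inter_subset_right) (Subset.refl _) ?_
    intro I hI
    rw [Matroid.restrict_indep_iff, Matroid.restrict_indep_iff]
    constructor
    · intro h
      exact ⟨⟨h.subset inter_subset_left, inter_subset_right⟩,
        ⟨h.subset sdiff_subset, sdiff_subset_sdiff_left hI⟩⟩
    · rintro ⟨⟨h1, _⟩, ⟨h2, _⟩⟩
      by_contra hcon
      obtain ⟨C, hCI, hC⟩ := ((Matroid.not_indep_iff hI).1 hcon).exists_isCircuit_subset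
      by_cases hCS : (C ∩ S).Nonempty
      · exact hC.not_indep (h1.subset (subset_inter hCI (hS C hC hCS)))
      · apply hC.not_indep
        apply h2.subset
        intro y hy
        exact ⟨hCI hy, fun h => hCS ⟨y, hy, h⟩⟩
  have hconn : ∀ S, S ⊆ N.E → S.Nonempty → S ≠ N.E →
      ∃ C, N.IsCircuit C ∧ ¬ C ⊆ S ∧ (C ∩ S).Nonempty := by
    intro S h1 h2 h3
    by_contra hcon
    push Not at hcon
    apply hdis
    refine ⟨S, h1, h2, h3, ?_⟩
    intro C hC hCS
    by_contra hn
    exact hCS.ne_empty (hcon C hC hn)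
  -- single element
  by_cases hsing : ∃ x, N.E = {x}
  · obtain ⟨x, hx⟩ := hsing
    by_cases hxi : N.Indep {x}
    · exact graphic_indep_singleton hx hxi
    · exfalso
      apply hcirc
      have hdep : N.Dep {x} := (Matroid.not_indep_iff (by rw [hx])).1 hxi
      obtain ⟨C, hCx, hC⟩ := hdep.exists_isCircuit_subset
      rcases subset_singleton_iff_eq.1 hCx with h | h
      · exact absurd hC.nonempty (by rw [h]; simp)
      · rw [hx, ← h]; exact hC
  have hcov : ∀ x ∈ N.E, ∃ C, N.IsCircuit C ∧ x ∈ C := by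
    intro x hx
    obtain ⟨C, hC, _, y, hyC, hyx⟩ := hconn {x} (singleton_subset_iff.2 hx) (singleton_nonempty x)
      (fun h => hsing ⟨x, h.symm⟩)
    rw [mem_singleton_iff] at hyx
    exact ⟨C, hC, hyx ▸ hyC⟩
  have hloop : ∀ x ∈ N.E, N.Indep {x} := by
    intro x hx
    by_contra hxi
    obtain ⟨C, hCx, hC⟩ := ((Matroid.not_indep_iff (singleton_subset_iff.2 hx)).1 hxi).exists_isCircuit_subset
    have hCe : C = {x} := by
      rcases subset_singleton_iff_eq.1 hCx with h | h
      · exact absurd hC.nonempty (by rw [h]; simp)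
      · exact h
    obtain ⟨D, hD, hDn, y, hyD, hyx⟩ := hconn {x} (singleton_subset_iff.2 hx) (singleton_nonempty x)
      (fun h => hsing ⟨x, h.symm⟩)
    rw [mem_singleton_iff] at hyx
    have : C = D := hC.eq_of_subset_isCircuit hD (by rw [hCe, singleton_subset_iff]; exact hyx ▸ hyD)
    exact hDn (by rw [← this, hCe])
  -- proper separation of N \ x
  by_cases hsepn : ∃ x A B, Disjoint A B ∧ x ∉ A ∧ x ∉ B ∧ N.E = insert x (A ∪ B) ∧
      (∀ C, N.IsCircuit C → x ∉ C → C ⊆ A ∨ C ⊆ B) ∧ ¬ N.Indep A ∧ ¬ N.Indep B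
  · obtain ⟨x, A, B, hAB, hxA, hxB, hE, hsep, hA, hB'⟩ := hsepn
    have hAE : A ⊆ N.E := by rw [hE]; exact subset_union_left.trans (subset_insert _ _)
    have hBE : B ⊆ N.E := by rw [hE]; exact subset_union_right.trans (subset_insert _ _)
    have gen : ∀ A, A ⊆ N.E → ¬ N.Indep A → Graphic (N.contract A) := by
      intro A hAE hA
      have g := ihc (cyc N A) (cyc_subset.trans hAE) (cyc_nonempty hAE hA) (full_cyc hU A)
      have g' := g.contract A
      rw [Matroid.contract_contract, union_eq_self_of_subset_left cyc_subset] at g'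
      exact g'
    exact Graphic.glue hAB hxA hxB hE hsep (gen A hAE hA) (gen B hBE hB')
  have hno : ∀ x A B, Disjoint A B → x ∉ A → x ∉ B → N.E = insert x (A ∪ B) →
      (∀ C, N.IsCircuit C → x ∉ C → C ⊆ A ∨ C ⊆ B) → N.Indep A ∨ N.Indep B := by
    intro x A B h1 h2 h3 h4 h5
    by_contra hcon
    rw [not_or] at hcon
    exact hsepn ⟨x, A, B, h1, h2, h3, h4, h5, hcon.1, hcon.2⟩
  have hfull : ∀ x ∈ N.E, Full N M₁ M₂ (ser N x) ∧ N.Indep (ser N x) := fun x hx =>
    ser_full hU hB hconn hcov hcirc hno hx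
  by_cases hall : ∀ x ∈ N.E, ser N x = {x}
  · -- all series classes trivial
    have hx1 : ∀ x ∈ N.E, rk M₁ {x} + rk M₂ {x} = 1 := by
      intro x hx
      have h1 := (hfull x hx).1
      rw [hall x hx] at h1
      unfold Full at h1
      rw [← h1, rk_indep (hloop x hx), ncard_singleton]
    refine Graphic.of_sum (S := {x | rk M₁ {x} = 1}) hG₁ hG₂ ?_ ?_ ?_
    · rw [hU.e1]; exact inter_subset_left
    · rw [hU.e2]; exact sdiff_subset
    · intro I hI
      constructor
      · intro h
        obtain ⟨I₁, I₂, h1, h2, rfl⟩ := (hU.indep I).1 h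
        constructor
        · apply h1.subset
          rintro y ⟨hy | hy, hyS⟩
          · exact hy
          · exfalso
            have := hx1 y (hI (Or.inr hy))
            have h3 : rk M₂ {y} = 1 := by
              rw [rk_indep (h2.subset (singleton_subset_iff.2 hy)), ncard_singleton]
            have h4 : rk M₁ {y} = 1 := hyS
            omega
        · apply h2.subset
          rintro y ⟨hy | hy, hyS⟩
          · exfalso
            apply hyS
            change rk M₁ {y} = 1
            rw [rk_indep (h1.subset (singleton_subset_iff.2 hy)), ncard_singleton]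
          · exact hy
      · rintro ⟨h1, h2⟩
        exact (hU.indep I).2 ⟨_, _, h1, h2, (inter_union_sdiff I _).symm⟩
  · push Not at hall
    obtain ⟨x, hxE, hxne⟩ := hall
    set Z := ser N x with hZ
    have hZE : Z ⊆ N.E := fun z hz => hz.1
    have hxZ : x ∈ Z := ⟨hxE, fun _ _ => Iff.rfl⟩
    obtain ⟨hZf, hZi⟩ := hfull x hxE
    have hcircZ : ∀ C, N.IsCircuit C → (C ∩ Z).Nonempty → Z ⊆ C := by
      rintro C hC ⟨y, hyC, hyZ⟩ z hzZ
      exact (hzZ.2 C hC).1 ((hyZ.2 C hC).2 hyC)
    have hYcyc : ∀ f ∈ N.E \ Z, ∃ C, N.IsCircuit C ∧ f ∈ C ∧ C ⊆ N.E \ Z := by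
      rintro f ⟨hfE, hfZ⟩
      have : ¬ ∀ C, N.IsCircuit C → f ∈ C → x ∈ C := fun h => hfZ (mem_ser_of (hcov f hfE) h)
      push Not at this
      obtain ⟨C, hC, hfC, hxC⟩ := this
      refine ⟨C, hC, hfC, ?_⟩
      intro y hy
      refine ⟨hC.subset_ground hy, fun hyZ => hxC ((hyZ.2 C hC).2 hy)⟩
    have hYf : Full N M₁ M₂ (N.E \ Z) := hU.full_cyclic hYcyc
    have hEf : Full N M₁ M₂ N.E := hU.full_cyclic (fun f hf => by
      obtain ⟨C, hC, hfC⟩ := hcov f hf
      exact ⟨C, hC, hfC, hC.subset_ground⟩)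
    have hYne : (N.E \ Z).Nonempty := by
      rw [nonempty_iff_ne_empty]
      intro h
      obtain ⟨C, hC, hxC⟩ := hcov x hxE
      have h1 : Z ⊆ C := hcircZ C hC ⟨x, hxC, hxZ⟩
      have h2 : N.E ⊆ Z := sdiff_eq_empty.1 h
      have h3 : C = N.E := Subset.antisymm hC.subset_ground (h2.trans h1)
      exact hcirc (h3 ▸ hC)
    obtain ⟨z, hzZ, M₁', M₂', hG₁', hG₂', hU'⟩ :=
      reduce hU hG₁ hG₂ hZE hZi hZf hYf hEf hcircZ hxZ (hcov x hxE)
    have hZ2 : (Z \ {z}).Nonempty := by
      rw [nonempty_iff_ne_empty]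
      intro h
      apply hxne
      have h1 : Z ⊆ {z} := sdiff_eq_empty.1 h
      have h2 : x = z := h1 hxZ
      rw [h2]
      exact Subset.antisymm h1 (singleton_subset_iff.2 hzZ)
    have gB : Graphic (N.contract (Z \ {z})) := by
      refine ih _ ?_ (N.contract (Z \ {z})) M₁' M₂' rfl hU' hG₁' hG₂'
        (hB.contract (sdiff_subset.trans hZE))
      rw [← hn, Matroid.contract_ground]
      obtain ⟨t, ht⟩ := hZ2
      exact ncard_lt_ncard ⟨sdiff_subset, fun h => (h (hZE ht.1)).2 ht⟩ hfin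
    have gA : Graphic (N.contract (N.E \ Z)) := ihc _ sdiff_subset hYne hYf
    refine Graphic.glue (A := N.E \ Z) (B := Z \ {z}) (x := z) ?_ ?_ ?_ ?_ ?_ gA gB
    · rw [Set.disjoint_left]
      rintro y hy hy'
      exact hy.2 hy'.1
    · exact fun h => h.2 hzZ
    · exact fun h => h.2 rfl
    · ext y
      simp only [mem_insert_iff, mem_union, mem_sdiff, mem_singleton_iff]
      constructor
      · intro hy; tauto
      · rintro (rfl | h | h)
        · exact hZE hzZ
        · exact h.1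
        · exact hZE h.1
    · intro C hC hzC
      left
      intro y hy
      refine ⟨hC.subset_ground hy, fun hyZ => hzC (hcircZ C hC ⟨y, hy, hyZ⟩ hzZ)⟩

/-- **Recski's conjecture**: if the union of two graphic matroids is binary, it is graphic. -/
theorem recski {N M₁ M₂ : Matroid α} (hU : IsUnion N M₁ M₂)
    (hG₁ : Graphic M₁) (hG₂ : Graphic M₂) (hB : Bin N) : Graphic N :=
  main_aux _ N M₁ M₂ rfl hU hG₁ hG₂ hB

end Pool.Agent.Recski
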