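import Pool.Agent.MP_376d35_co.Core
import Pool.Agent.MP_376d35_co.Circ

set_option autoImplicit false

open Set

namespace Pool.Agent.Recski

variable {α : Type}

/-- replacing one basis of `Z` by another -/
theorem swap_basis {M : Matroid α} {Z W W' K : Set α} (hW : M.IsBasis W Z) (hW' : M.IsBasis W' Z)
    (hKZ : Disjoint K Z) (h : M.Indep (K ∪ W)) : M.Indep (K ∪ W') := by
  have h1 : (M.contract Z).Indep K := by
    rw [hW.contract_indep_iff]; exact ⟨h, hKZ.symm⟩
  rw [hW'.contract_indep_iff] at h1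
  exact h1.1

/-- if `r(E) = r(Y) + r(Z)` then independent sets of `Y` and `Z` can be put together -/
theorem indep_union_of_rk {M : Matroid α} (hfin : M.E.Finite) {Y Z I W : Set α} (hYE : Y ⊆ M.E)
    (hZE : Z ⊆ M.E) (hE : M.E ⊆ Y ∪ Z)
    (hr : rk M Y + rk M Z ≤ rk M M.E) (hI : M.Indep I) (hIY : I ⊆ Y) (hW : M.Indep W)
    (hWZ : W ⊆ Z) : M.Indep (I ∪ W) := by
  obtain ⟨J, hJ, hIJ⟩ := hI.subset_isBasis_of_subset hIY hYE
  obtain ⟨K, hK, hWK⟩ := hW.subset_isBasis_of_subset hWZ hZE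
  have hJf : J.Finite := hfin.subset hJ.indep.subset_ground
  have hKf : K.Finite := hfin.subset hK.indep.subset_ground
  have h1 : rk M (J ∪ K) = rk M M.E := by
    symm
    apply rk_eq_of_subset_closure hfin (union_subset hJ.indep.subset_ground hK.indep.subset_ground)
    intro e he
    rcases hE he with h | h
    · exact M.closure_subset_closure subset_union_left (hJ.subset_closure h)
    · exact M.closure_subset_closure subset_union_right (hK.subset_closure h)
  have h2 : (J ∪ K).ncard ≤ J.ncard + K.ncard := ncard_union_le J K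
  rw [rk_basis hJ, rk_basis hK, ← h1] at hr
  exact (indep_of_rk hfin (hJf.union hKf) (by omega)).subset (union_subset_union hIJ hWK)

theorem reduce_aux {N M₁ M₂ : Matroid α} (hU : IsUnion N M₁ M₂) (hG₁ : Graphic M₁)
    (hG₂ : Graphic M₂) {Z : Set α} (hZE : Z ⊆ N.E) (hZi : N.Indep Z)
    (hZf : Full N M₁ M₂ Z)
    (hcirc : ∀ C, N.IsCircuit C → (C ∩ Z).Nonempty → Z ⊆ C)
    (h1 : rk M₁ N.E + 1 = rk M₁ (N.E \ Z) + rk M₁ Z)
    (h2 : rk M₂ N.E = rk M₂ (N.E \ Z) + rk M₂ Z) :
    ∃ z ∈ Z, ∃ M₁' M₂', Graphic M₁' ∧ Graphic M₂' ∧ IsUnion (N.contract (Z \ {z})) M₁' M₂' := by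
  set Y := N.E \ Z with hY
  have hYE : Y ⊆ N.E := sdiff_subset
  have hf1 := hU.fin1
  have hf2 := hU.fin2
  have hZE1 : Z ⊆ M₁.E := hU.e1 ▸ hZE
  have hYE1 : Y ⊆ M₁.E := hU.e1 ▸ hYE
  have hZE2 : Z ⊆ M₂.E := hU.e2 ▸ hZE
  have hYE2 : Y ⊆ M₂.E := hU.e2 ▸ hYE
  obtain ⟨J, hJ⟩ := M₁.exists_isBasis Y hYE1
  obtain ⟨B, hB, hJB⟩ := hJ.indep.subset_isBasis_of_subset (hJ.subset.trans hYE) (hU.e1 ▸ Subset.rfl)
  have hBf : B.Finite := hf1.subset hB.indep.subset_ground
  set A := B \ Y with hA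
  have hBY : B ∩ Y = J := by
    symm
    exact hJ.eq_of_subset_indep (hB.indep.subset inter_subset_left) (subset_inter hJB hJ.subset)
      inter_subset_right
  have hAZ : A ⊆ Z := by
    rintro a ⟨ha1, ha2⟩
    by_contra haZ
    exact ha2 ⟨hB.subset ha1, haZ⟩
  have hAi : M₁.Indep A := hB.indep.subset sdiff_subset
  have hAY : Disjoint A Y := disjoint_sdiff_left
  have hAJ : M₁.Indep (A ∪ J) := hB.indep.subset (union_subset sdiff_subset hJB)
  have hcA : A.ncard + 1 = rk M₁ Z := by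
    have e1 : (B ∩ Y).ncard + A.ncard = B.ncard := ncard_inter_add_ncard_sdiff_eq_ncard B Y hBf
    rw [hBY, ← rk_basis hJ, ← rk_basis hB] at e1
    omega
  obtain ⟨A', hA', hAA'⟩ := hAi.subset_isBasis_of_subset hAZ hZE1
  have hA'f : A'.Finite := hf1.subset hA'.indep.subset_ground
  have hcA' : (A' \ A).ncard = 1 := by
    have e1 : (A' \ A).ncard + A.ncard = A'.ncard := ncard_sdiff_add_ncard_of_subset hAA' hA'f
    rw [← rk_basis hA'] at e1
    omega
  obtain ⟨z, hz⟩ := ncard_eq_one.1 hcA'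
  have hzA' : z ∈ A' \ A := by rw [hz]; rfl
  have hA'eq : A' = insert z A := by
    rw [← union_sdiff_cancel hAA', hz, union_singleton]
  have hzZ : z ∈ Z := hA'.subset hzA'.1
  have hzY : z ∉ Y := fun h => h.2 hzZ
  have hzA : z ∉ A := hzA'.2
  have hYZ : Disjoint Y Z := disjoint_sdiff_left
  have hNE : N.E \ (Z \ {z}) = insert z Y := by
    ext y
    simp only [hY, mem_sdiff, mem_singleton_iff, mem_insert_iff]
    constructor
    · rintro ⟨h1, h2⟩; tauto
    · rintro (rfl | ⟨h1, h2⟩)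
      · exact ⟨hZE hzZ, by tauto⟩
      · exact ⟨h1, by tauto⟩
  obtain ⟨W₁, W₂, hW₁, hW₂, hWd, hZW⟩ := hU.disj hZi
  obtain ⟨bW₁, bW₂⟩ := hU.full_parts hZf hZE hW₁ hW₂ (by rw [hZW]; exact subset_union_left)
    (by rw [hZW]; exact subset_union_right)
    (by rw [rk_indep hZi]; conv_lhs => rw [hZW]
        exact (hU.ncard_eq hW₁ hW₂ hWd).le)
  refine ⟨z, hzZ, (M₁.contract A).restrict (insert z Y), (M₂.restrict Y).restrict (insert z Y),
    (hG₁.contract A).restrict _, (hG₂.restrict Y).restrict _, ?_, ?_, ?_, ?_⟩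
  · rw [Matroid.contract_ground]; exact hU.fin.sdiff
  · rw [Matroid.contract_ground, hNE]; rfl
  · rw [Matroid.contract_ground, hNE]; rfl
  intro I
  rw [(hZi.subset sdiff_subset : N.Indep (Z \ {z})).contract_indep_iff]
  simp only [Matroid.restrict_indep_iff, hAi.contract_indep_iff]
  constructor
  · rintro ⟨hd, hi⟩
    have hIsub : I ⊆ insert z Y := by
      rw [← hNE]
      exact subset_sdiff.2 ⟨(subset_union_left.trans hi.subset_ground), hd⟩
    by_cases hzI : z ∈ I
    · have hZsub : Z ⊆ I ∪ (Z \ {z}) := by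
        intro y hy
        by_cases hyz : y = z
        · exact Or.inl (hyz ▸ hzI)
        · exact Or.inr ⟨hy, hyz⟩
      obtain ⟨I₁, I₂, g1, g2, gd, hIe⟩ := hU.disj hi
      have hZe : (I₁ ∩ Z) ∪ (I₂ ∩ Z) = Z := by
        rw [← union_inter_distrib_right, ← hIe, inter_eq_self_of_subset_right hZsub]
      have hcard := hU.ncard_eq (g1.subset (inter_subset_left (t := Z)))
        (g2.subset (inter_subset_left (t := Z))) (gd.mono inter_subset_left inter_subset_left)
      rw [hZe] at hcard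
      obtain ⟨b1, b2⟩ := hU.full_parts hZf hZE (g1.subset (inter_subset_left (t := Z)))
        (g2.subset (inter_subset_left (t := Z))) inter_subset_right inter_subset_right
        (by rw [rk_indep hZi]; exact hcard.le)
      have k1 : M₁.Indep ((I₁ \ Z) ∪ A') :=
        swap_basis b1 hA' disjoint_sdiff_left (by rw [sdiff_union_inter]; exact g1)
      have hsub1 : ∀ y ∈ I₁ ∪ I₂, y ∉ Z → y ∈ I := by
        intro y hy hyZ
        rw [← hIe] at hy
        rcases hy with h | h
        · exact h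
        · exact absurd h.1 hyZ
      refine ⟨insert z (I₁ \ Z), I₂ \ Z, ⟨⟨?_, ?_⟩, ?_⟩, ⟨⟨g2.subset sdiff_subset, ?_⟩, ?_⟩, ?_⟩
      · rw [disjoint_insert_left]
        exact ⟨hzA, disjoint_sdiff_left.mono_right hAZ⟩
      · rw [insert_union, ← union_insert, ← hA'eq]; exact k1
      · apply insert_subset (mem_insert _ _)
        rintro y ⟨hy1, hy2⟩
        exact hIsub (hsub1 y (Or.inl hy1) hy2)
      · rintro y ⟨hy1, hy2⟩
        rcases hIsub (hsub1 y (Or.inr hy1) hy2) with h | h
        · exact absurd (h ▸ hzZ) hy2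
        · exact h
      · rintro y ⟨hy1, hy2⟩
        exact hIsub (hsub1 y (Or.inr hy1) hy2)
      · ext y
        constructor
        · intro hyI
          by_cases hyZ : y ∈ Z
          · have : y = z := by
              rcases hIsub hyI with h | h
              · exact h
              · exact absurd hyZ h.2
            exact Or.inl (Or.inl this)
          · have : y ∈ I₁ ∪ I₂ := hIe ▸ Or.inl hyI
            rcases this with h | h
            · exact Or.inl (Or.inr ⟨h, hyZ⟩)
            · exact Or.inr ⟨h, hyZ⟩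
        · rintro ((rfl | h) | h)
          · exact hzI
          · exact hsub1 y (Or.inl h.1) h.2
          · exact hsub1 y (Or.inr h.1) h.2
    · have hIY : I ⊆ Y := by
        intro y hy
        rcases hIsub hy with h | h
        · exact absurd (h ▸ hy) hzI
        · exact h
      obtain ⟨I₁, I₂, g1, g2, gd, hIe⟩ := hU.disj (hi.subset subset_union_left)
      have hI₁Y : I₁ ⊆ Y := by rw [hIe] at hIY; exact subset_union_left.trans hIY
      have hI₂Y : I₂ ⊆ Y := by rw [hIe] at hIY; exact subset_union_right.trans hIY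
      refine ⟨I₁, I₂, ⟨⟨?_, ?_⟩, hI₁Y.trans (subset_insert _ _)⟩,
        ⟨⟨g2, hI₂Y⟩, hI₂Y.trans (subset_insert _ _)⟩, hIe⟩
      · exact (hAY.symm.mono_left hI₁Y)
      · obtain ⟨J', hJ', hIJ'⟩ := g1.subset_isBasis_of_subset hI₁Y hYE1
        have := swap_basis hJ hJ' hAY hAJ
        exact this.subset (by rw [union_comm]; exact union_subset_union_right _ hIJ')
  · rintro ⟨I₁, I₂, ⟨⟨hd1, g1⟩, s1⟩, ⟨⟨g2, s2⟩, _⟩, rfl⟩
    have hdz : ∀ y, y ∈ insert z Y → y ∉ Z \ {z} := by
      rintro y (rfl | hy) h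
      · exact h.2 rfl
      · exact hy.2 h.1
    refine ⟨?_, ?_⟩
    · rw [Set.disjoint_left]
      rintro y (hy | hy)
      · exact hdz y (s1 hy)
      · exact hdz y (Or.inr (s2 hy))
    by_cases hzI : z ∈ I₁
    · set K₁ := I₁ \ {z} with hK₁
      have hK₁Y : K₁ ⊆ Y := by
        rintro y ⟨hy1, hy2⟩
        rcases s1 hy1 with h | h
        · exact absurd h hy2
        · exact h
      have k1 : M₁.Indep (K₁ ∪ A') := by
        rw [hA'eq, union_insert, ← insert_union, hK₁, insert_sdiff_singleton, insert_eq_of_mem hzI]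
        exact g1
      have k2 := swap_basis hA' bW₁ (hYZ.mono_left hK₁Y) k1
      have k3 : M₂.Indep (I₂ ∪ W₂) := by
        apply indep_union_of_rk hf2 hYE2 hZE2 _ _ g2 s2 hW₂ bW₂.subset
        · rw [hU.e2, hY, sdiff_union_of_subset hZE]
        · rw [hU.e2]; exact h2.ge
      have k4 := (hU.indep _).2 ⟨_, _, k2, k3, rfl⟩
      apply k4.subset
      rintro y ((hy | hy) | hy)
      · by_cases hyz : y = z
        · have : y ∈ Z := hyz ▸ hzZ
          rw [hZW] at this
          rcases this with h | h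
          · exact Or.inl (Or.inr h)
          · exact Or.inr (Or.inr h)
        · exact Or.inl (Or.inl ⟨hy, hyz⟩)
      · exact Or.inr (Or.inl hy)
      · have : y ∈ Z := hy.1
        rw [hZW] at this
        rcases this with h | h
        · exact Or.inl (Or.inr h)
        · exact Or.inr (Or.inr h)
    · have hI₁Y : I₁ ⊆ Y := by
        intro y hy
        rcases s1 hy with h | h
        · exact absurd (h ▸ hy) hzI
        · exact h
      have hI : N.Indep (I₁ ∪ I₂) :=
        (hU.indep _).2 ⟨_, _, g1.subset subset_union_left, g2, rfl⟩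
      by_contra hcon
      have hsubE : (I₁ ∪ I₂) ∪ (Z \ {z}) ⊆ N.E :=
        union_subset hI.subset_ground (sdiff_subset.trans hZE)
      obtain ⟨C, hCs, hC⟩ := ((Matroid.not_indep_iff hsubE).1 hcon).exists_isCircuit_subset
      by_cases hCZ : (C ∩ Z).Nonempty
      · have := hCs (hcirc C hC hCZ hzZ)
        rcases this with (h | h) | h
        · exact hzI h
        · exact hzY (s2 h)
        · exact h.2 rfl
      · apply hC.not_indep
        apply hI.subset
        intro y hy
        rcases hCs hy with h | h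
        · exact h
        · exact absurd ⟨y, hy, h.1⟩ hCZ

/-- the rank of `N` over a series class -/
theorem rk_ser {N : Matroid α} (hfin : N.E.Finite) {Z : Set α} (hZE : Z ⊆ N.E)
    (hcirc : ∀ C, N.IsCircuit C → (C ∩ Z).Nonempty → Z ⊆ C)
    {x : α} (hx : x ∈ Z) (hxC : ∃ C, N.IsCircuit C ∧ x ∈ C) :
    rk N N.E + 1 = rk N (N.E \ Z) + Z.ncard := by
  have hZf : Z.Finite := hfin.subset hZE
  obtain ⟨J, hJ⟩ := N.exists_isBasis (N.E \ Z)
  have hJf : J.Finite := hfin.subset hJ.indep.subset_ground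
  have hd : Disjoint J (Z \ {x}) := by
    rw [Set.disjoint_left]
    intro y hy hy'
    exact (hJ.subset hy).2 hy'.1
  have hind : N.Indep (J ∪ (Z \ {x})) := by
    by_contra hcon
    obtain ⟨C, hCs, hC⟩ := ((Matroid.not_indep_iff (union_subset hJ.indep.subset_ground
      (sdiff_subset.trans hZE))).1 hcon).exists_isCircuit_subset
    by_cases hCZ : (C ∩ Z).Nonempty
    · rcases hCs (hcirc C hC hCZ hx) with h | h
      · exact (hJ.subset h).2 hx
      · exact h.2 rfl
    · apply hC.not_indep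
      apply hJ.indep.subset
      intro y hy
      rcases hCs hy with h | h
      · exact h
      · exact absurd ⟨y, hy, h.1⟩ hCZ
  have hclE : N.E ⊆ N.closure (J ∪ (Z \ {x})) := by
    have h1 : N.E \ {x} ⊆ N.closure (J ∪ (Z \ {x})) := by
      rintro y ⟨hy1, hy2⟩
      by_cases hyZ : y ∈ Z
      · exact N.mem_closure_of_mem' (Or.inr ⟨hyZ, hy2⟩) hy1
      · exact N.closure_subset_closure subset_union_left (hJ.subset_closure ⟨hy1, hyZ⟩)
    obtain ⟨C, hC, hxC⟩ := hxC
    have h2 : x ∈ N.closure (N.E \ {x}) :=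
      N.closure_subset_closure (sdiff_subset_sdiff_left hC.subset_ground)
        (hC.mem_closure_sdiff_singleton_of_mem hxC)
    intro y hy
    by_cases hyx : y = x
    · rw [hyx]
      exact N.closure_subset_closure_of_subset_closure h1 h2
    · exact h1 ⟨hy, hyx⟩
  have h1 := rk_eq_of_subset_closure hfin hind.subset_ground hclE
  rw [rk_indep hind, ncard_union_eq hd hJf hZf.sdiff] at h1
  have h2 : (Z \ {x}).ncard + 1 = Z.ncard := ncard_sdiff_singleton_add_one hx hZf
  rw [rk_basis hJ]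
  omega

theorem reduce {N M₁ M₂ : Matroid α} (hU : IsUnion N M₁ M₂) (hG₁ : Graphic M₁)
    (hG₂ : Graphic M₂) {Z : Set α} (hZE : Z ⊆ N.E) (hZi : N.Indep Z)
    (hZf : Full N M₁ M₂ Z) (hYf : Full N M₁ M₂ (N.E \ Z)) (hEf : Full N M₁ M₂ N.E)
    (hcirc : ∀ C, N.IsCircuit C → (C ∩ Z).Nonempty → Z ⊆ C)
    {x : α} (hx : x ∈ Z) (hxC : ∃ C, N.IsCircuit C ∧ x ∈ C) :
    ∃ z ∈ Z, ∃ M₁' M₂', Graphic M₁' ∧ Graphic M₂' ∧ IsUnion (N.contract (Z \ {z})) M₁' M₂' := by
  have hr := rk_ser hU.fin hZE hcirc hx hxC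
  have hE : N.E = (N.E \ Z) ∪ Z := (sdiff_union_of_subset hZE).symm
  have s1 := rk_union_le hU.fin1 (N.E \ Z) Z
  have s2 := rk_union_le hU.fin2 (N.E \ Z) Z
  rw [← hE] at s1 s2
  have hZc := rk_indep hZi
  unfold Full at hZf hYf hEf
  rcases Nat.lt_or_ge (rk M₁ N.E) (rk M₁ (N.E \ Z) + rk M₁ Z) with hlt | hge
  · exact reduce_aux hU hG₁ hG₂ hZE hZi hZf hcirc (by omega) (by omega)
  · obtain ⟨z, hz, A, B, hA, hB, hAB⟩ := reduce_aux hU.symm hG₂ hG₁ hZE hZi
      (by unfold Full; omega) hcirc (by omega) (by omega)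
    exact ⟨z, hz, A, B, hA, hB, hAB⟩

end Pool.Agent.Recski
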