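import Mathlib

set_option autoImplicit false

open Set

namespace Pool.Agent.Recski

variable {α : Type}

/-- `v` represents the matroid `M` over the field `K`. -/
def Rep (K : Type) [Field K] {W : Type} [AddCommGroup W] [Module K W]
    (M : Matroid α) (v : α → W) : Prop :=
  ∀ I : Set α, I ⊆ M.E → (M.Indep I ↔ LinearIndepOn K v I)

section Rep

variable {K : Type} [Field K] {W W' : Type} [AddCommGroup W] [Module K W]
  [AddCommGroup W'] [Module K W'] {M : Matroid α} {v : α → W}

theorem Rep.restrict (h : Rep K M v) {R : Set α} (hR : R ⊆ M.E) : Rep K (M.restrict R) v := by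
  intro I hI
  have hI' : I ⊆ R := hI
  rw [Matroid.restrict_indep_iff, h I (hI'.trans hR)]
  exact ⟨fun h => h.1, fun h => ⟨h, hI'⟩⟩

theorem Rep.span_eq (h : Rep K M v) {J T : Set α} (hJ : M.IsBasis J T) :
    Submodule.span K (v '' J) = Submodule.span K (v '' T) := by
  apply le_antisymm
  · exact Submodule.span_mono (image_mono hJ.subset)
  · rw [Submodule.span_le]
    rintro _ ⟨t, ht, rfl⟩
    have hJi : LinearIndepOn K v J := (h J hJ.indep.subset_ground).1 hJ.indep
    by_contra hcon
    have hcon' : v t ∉ Submodule.span K (v '' J) := hcon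
    have htJ : t ∉ J := fun h' => hcon' (Submodule.subset_span (mem_image_of_mem _ h'))
    have hins : LinearIndepOn K v (insert t J) := (linearIndepOn_insert htJ).2 ⟨hJi, hcon'⟩
    have hind : M.Indep (insert t J) := by
      rw [h _ (insert_subset (hJ.subset_ground ht) hJ.indep.subset_ground)]
      exact hins
    have := hJ.eq_of_subset_indep hind (subset_insert _ _) (insert_subset ht hJ.subset)
    exact htJ (this ▸ mem_insert _ _)

theorem Rep.contract (h : Rep K M v) {T : Set α} (hT : T ⊆ M.E) (L : W →ₗ[K] W')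
    (hL : LinearMap.ker L = Submodule.span K (v '' T)) :
    Rep K (M.contract T) (fun e => L (v e)) := by
  obtain ⟨J, hJ⟩ := M.exists_isBasis T
  intro I hI
  have hI' : I ⊆ M.E \ T := hI
  have hdis : Disjoint T I := by
    rw [disjoint_comm]; exact (subset_diff.1 hI').2
  have hJI : Disjoint J I := hdis.mono_left hJ.subset
  have hIE : I ⊆ M.E := hI'.trans diff_subset
  have hJE : J ⊆ M.E := hJ.indep.subset_ground
  rw [hJ.contract_indep_iff, and_iff_left hdis, union_comm, h _ (union_subset hJE hIE),
    linearIndepOn_union_iff_quotient hJI, and_iff_right ((h J hJE).1 hJ.indep)]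
  have hL' : LinearMap.ker L = Submodule.span K (v '' J) := by rw [hL, h.span_eq hJ]
  let Lt : (W ⧸ Submodule.span K (v '' J)) →ₗ[K] W' :=
    (Submodule.span K (v '' J)).liftQ L (le_of_eq hL'.symm)
  have hker : LinearMap.ker Lt = ⊥ := Submodule.ker_liftQ_eq_bot _ _ _ (le_of_eq hL')
  have := (Lt.linearIndependent_iff (v := fun e : I => (Submodule.span K (v '' J)).mkQ (v e)) hker)
  exact this.symm

theorem Rep.mem_span_of_mem_closure (h : Rep K M v) {I : Set α} {e : α}
    (hI : M.Indep I) (he : e ∈ M.closure I) : v e ∈ Submodule.span K (v '' I) := by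
  have hb : M.IsBasis I (M.closure I) := hI.isBasis_closure
  rw [h.span_eq hb]
  exact Submodule.subset_span (mem_image_of_mem _ he)

end Rep

/-- `M` is graphic: represented over `ℚ` by the incidence vectors of a graph. -/
def Graphic (M : Matroid α) : Prop :=
  ∃ (V : Type) (u w : α → V), Rep ℚ M
    (fun e => Finsupp.single (u e) (1 : ℚ) - Finsupp.single (w e) (1 : ℚ))

theorem Graphic.restrict {M : Matroid α} (h : Graphic M) (R : Set α) : Graphic (M.restrict R) := by
  classical
  obtain ⟨V, u, w, hr⟩ := h
  refine ⟨V, u, fun e => if e ∈ M.E then w e else u e, ?_⟩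
  intro I hI
  have hI' : I ⊆ R := hI
  rw [Matroid.restrict_indep_iff, and_iff_left hI']
  by_cases hIE : I ⊆ M.E
  · rw [hr I hIE]
    apply linearIndependent_equiv' (Equiv.refl _)
    ext1 e
    have he : (e : α) ∈ M.E := hIE e.2
    simp [he]
  · constructor
    · intro h; exact absurd h.subset_ground hIE
    · intro h
      exfalso
      rw [not_subset] at hIE
      obtain ⟨e, heI, heE⟩ := hIE
      have := h.ne_zero heI
      simp [heE] at this

/-- kernel of the map induced on chains by identifying vertices -/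
theorem ker_mapDomain_quot {V : Type} (r : V → V → Prop) :
    LinearMap.ker (Finsupp.lmapDomain ℚ ℚ (Quot.mk r) : (V →₀ ℚ) →ₗ[ℚ] (Quot r →₀ ℚ)) =
      Submodule.span ℚ {x | ∃ a b, r a b ∧ x = Finsupp.single a (1 : ℚ) - Finsupp.single b (1 : ℚ)} := by
  set S := Submodule.span ℚ {x : V →₀ ℚ | ∃ a b, r a b ∧ x = Finsupp.single a (1 : ℚ) - Finsupp.single b (1 : ℚ)} with hS
  apply le_antisymm
  · intro s hs
    rw [LinearMap.mem_ker] at hs
    -- the section
    let σ : Quot r → V := Quot.out
    have hσ : ∀ a : V, Finsupp.single a (1 : ℚ) - Finsupp.single (σ (Quot.mk r a)) (1 : ℚ) ∈ S := by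
      intro a
      have hgen : ∀ b c : V, Relation.EqvGen r b c →
          Finsupp.single b (1 : ℚ) - Finsupp.single c (1 : ℚ) ∈ S := by
        intro b c hbc
        induction hbc with
        | rel x y h => exact Submodule.subset_span ⟨x, y, h, rfl⟩
        | refl x => simp
        | symm x y _ ih => 
          have := S.neg_mem ih
          simpa using this
        | trans x y z _ _ ih1 ih2 =>
          have := S.add_mem ih1 ih2
          simpa using this
      apply hgen
      have : Quot.mk r (σ (Quot.mk r a)) = Quot.mk r a := Quot.out_eq _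
      exact Quot.eqvGen_exact this.symm
    have key : ∀ s : V →₀ ℚ, s - Finsupp.lmapDomain ℚ ℚ σ (Finsupp.lmapDomain ℚ ℚ (Quot.mk r) s) ∈ S := by
      intro s
      induction s using Finsupp.induction_linear with
      | zero => simp
      | add f g hf hg =>
        have := S.add_mem hf hg
        rw [map_add, map_add]
        convert! this using 1
        abel
      | single a c =>
        have := S.smul_mem c (hσ a)
        rw [smul_sub, Finsupp.smul_single, Finsupp.smul_single, smul_eq_mul, mul_one] at this
        rw [Finsupp.lmapDomain_apply, Finsupp.lmapDomain_apply, Finsupp.mapDomain_single,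
          Finsupp.mapDomain_single]
        exact this
    have := key s
    rw [hs, map_zero, sub_zero] at this
    exact this
  · rw [hS, Submodule.span_le]
    rintro _ ⟨a, b, hab, rfl⟩
    simp only [SetLike.mem_coe, LinearMap.mem_ker, map_sub, Finsupp.lmapDomain_apply,
      Finsupp.mapDomain_single]
    rw [Quot.sound hab, sub_self]

theorem Graphic.contract {M : Matroid α} (h : Graphic M) (T : Set α) : Graphic (M.contract T) := by
  rw [← M.contract_inter_ground_eq]
  obtain ⟨V, u, w, hr⟩ := h
  set T' := T ∩ M.E with hT'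
  have hT'E : T' ⊆ M.E := inter_subset_right
  let r : V → V → Prop := fun a b => ∃ t ∈ T', u t = a ∧ w t = b
  refine ⟨Quot r, fun e => Quot.mk r (u e), fun e => Quot.mk r (w e), ?_⟩
  have := hr.contract hT'E (Finsupp.lmapDomain ℚ ℚ (Quot.mk r)) ?_
  · convert! this using 1
    ext1 e
    rw [map_sub, Finsupp.lmapDomain_apply, Finsupp.lmapDomain_apply, Finsupp.mapDomain_single,
      Finsupp.mapDomain_single]
  · rw [ker_mapDomain_quot]
    congr 1
    ext x
    constructor
    · rintro ⟨a, b, ⟨t, ht, rfl, rfl⟩, rfl⟩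
      exact ⟨t, ht, rfl⟩
    · rintro ⟨t, ht, rfl⟩
      exact ⟨_, _, ⟨t, ht, rfl, rfl⟩, rfl⟩

/-- binary matroids, with an arbitrary `GF(2)`-vector space -/
def Bin (M : Matroid α) : Prop :=
  ∃ (W : Type) (_ : AddCommGroup W) (_ : Module (ZMod 2) W) (f : α → W), Rep (ZMod 2) M f

theorem Bin.restrict {M : Matroid α} (h : Bin M) {R : Set α} (hR : R ⊆ M.E) :
    Bin (M.restrict R) := by
  obtain ⟨W, i1, i2, f, hf⟩ := h
  exact ⟨W, i1, i2, f, hf.restrict hR⟩

theorem Bin.contract {M : Matroid α} (h : Bin M) {T : Set α} (hT : T ⊆ M.E) :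
    Bin (M.contract T) := by
  obtain ⟨W, i1, i2, f, hf⟩ := h
  exact ⟨W ⧸ Submodule.span (ZMod 2) (f '' T), inferInstance, inferInstance, _,
    hf.contract hT (Submodule.mkQ _) (Submodule.ker_mkQ _)⟩

end Pool.Agent.Recski
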