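import Pool.Agent.MP_376d35_co.Rep

set_option autoImplicit false

open Set

namespace Pool.Agent.Recski

variable {α : Type}

/-- natural-number rank -/
noncomputable def rk (M : Matroid α) (X : Set α) : ℕ := (M.eRk X).toNat

section rk

variable {M : Matroid α} {X Y I J : Set α}

theorem coe_rk (M : Matroid α) (hM : M.E.Finite) (X : Set α) : (rk M X : ℕ∞) = M.eRk X := by
  haveI : M.Finite := ⟨hM⟩
  exact ENat.coe_toNat (M.isRkFinite_set X).eRk_lt_top.ne

theorem rk_mono (hM : M.E.Finite) (h : X ⊆ Y) : rk M X ≤ rk M Y := by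
  have := M.eRk_mono h
  rw [← coe_rk M hM, ← coe_rk M hM] at this
  exact_mod_cast this

theorem rk_submod (hM : M.E.Finite) (X Y : Set α) :
    rk M (X ∩ Y) + rk M (X ∪ Y) ≤ rk M X + rk M Y := by
  have := M.eRk_inter_add_eRk_union_le X Y
  rw [← coe_rk M hM, ← coe_rk M hM, ← coe_rk M hM, ← coe_rk M hM] at this
  exact_mod_cast this

theorem rk_union_le (hM : M.E.Finite) (X Y : Set α) : rk M (X ∪ Y) ≤ rk M X + rk M Y := by
  have := rk_submod hM X Y
  omega

theorem rk_indep (hI : M.Indep I) : rk M I = I.ncard := by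
  unfold rk
  rw [hI.eRk_eq_encard]
  rfl

theorem rk_basis (hI : M.IsBasis I X) : rk M X = I.ncard := by
  unfold rk
  rw [hI.eRk_eq_encard]
  rfl

theorem rk_basis' (hI : M.IsBasis' I X) : rk M X = I.ncard := by
  unfold rk
  rw [hI.eRk_eq_encard]
  rfl

theorem rk_le_ncard (hM : M.E.Finite) (hX : X.Finite) : rk M X ≤ X.ncard := by
  obtain ⟨I, hI⟩ := M.exists_isBasis' X
  rw [rk_basis' hI]
  exact ncard_le_ncard hI.subset hX

theorem indep_of_rk (hM : M.E.Finite) (hI : I.Finite) (h : I.ncard ≤ rk M I) : M.Indep I := by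
  rw [Matroid.indep_iff_eRk_eq_encard_of_finite hI, ← coe_rk M hM, ← hI.cast_ncard_eq]
  have := rk_le_ncard hM hI
  have h' : rk M I = I.ncard := le_antisymm this h
  rw [h']

theorem indep_le_rk (hM : M.E.Finite) (hI : M.Indep I) (hIX : I ⊆ X) : I.ncard ≤ rk M X := by
  rw [← rk_indep hI]
  exact rk_mono hM hIX

theorem basis_of_ncard (hM : M.E.Finite) (hI : M.Indep I) (hIX : I ⊆ X) (hX : X ⊆ M.E)
    (h : rk M X ≤ I.ncard) : M.IsBasis I X := by
  obtain ⟨J, hJ, hIJ⟩ := hI.subset_isBasis_of_subset hIX hX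
  have h1 : J.ncard ≤ I.ncard := by rw [← rk_basis hJ]; exact h
  have h2 : I = J := eq_of_subset_of_ncard_le hIJ h1 (hM.subset hJ.indep.subset_ground)
  rw [h2]; exact hJ

theorem mem_closure_of_rk (hM : M.E.Finite) {e : α} (he : e ∈ M.E)
    (h : rk M (insert e X) ≤ rk M X) : e ∈ M.closure X := by
  by_contra hcon
  have := Matroid.eRk_insert_eq_add_one (M := M) (e := e) (X := X) ⟨he, hcon⟩
  rw [← coe_rk M hM, ← coe_rk M hM] at this
  have h2 : rk M (insert e X) = rk M X + 1 := by exact_mod_cast this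
  omega

theorem rk_closure (M : Matroid α) (X : Set α) : rk M (M.closure X) = rk M X := by
  unfold rk; rw [M.eRk_closure_eq]

theorem rk_eq_of_subset_closure (hM : M.E.Finite) (h1 : X ⊆ Y) (h2 : Y ⊆ M.closure X) :
    rk M Y = rk M X := by
  apply le_antisymm
  · rw [← rk_closure M X]; exact rk_mono hM h2
  · exact rk_mono hM h1

theorem rk_circuit (hM : M.E.Finite) {C : Set α} (hC : M.IsCircuit C) : rk M C + 1 = C.ncard := by
  have := hC.eRk_add_one_eq
  rw [← coe_rk M hM, ← (hM.subset hC.subset_ground).cast_ncard_eq] at this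
  exact_mod_cast this

theorem rk_empty (M : Matroid α) : rk M ∅ = 0 := by
  unfold rk; simp

end rk

/-- **Matroid partition**: a finite set satisfying Edmonds' condition (relative to two sets
`K₁`, `K₂`) can be partitioned. -/
theorem partition {M₁ M₂ : Matroid α} (h1 : M₁.E.Finite) (h2 : M₂.E.Finite) {E : Set α}
    (hE : E.Finite) : ∀ K₁ K₂ : Set α, K₁.Finite → K₂.Finite → Disjoint K₁ E → Disjoint K₂ E →
      (∀ A, A ⊆ E → A.ncard + K₁.ncard + K₂.ncard ≤ rk M₁ (A ∪ K₁) + rk M₂ (A ∪ K₂)) →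
      ∃ I₁ I₂, I₁ ∪ I₂ = E ∧ M₁.Indep (I₁ ∪ K₁) ∧ M₂.Indep (I₂ ∪ K₂) := by
  induction E, hE using Set.Finite.induction_on with
  | empty =>
    intro K₁ K₂ hK₁ hK₂ _ _ h
    have h0 := h ∅ (empty_subset _)
    rw [ncard_empty, empty_union, empty_union] at h0
    have e1 := rk_le_ncard h1 hK₁
    have e2 := rk_le_ncard h2 hK₂
    exact ⟨∅, ∅, by simp, by rw [empty_union]; exact indep_of_rk h1 hK₁ (by omega),
      by rw [empty_union]; exact indep_of_rk h2 hK₂ (by omega)⟩
  | @insert e E heE hE ih =>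
    intro K₁ K₂ hK₁ hK₂ hd1 hd2 h
    rw [disjoint_insert_right] at hd1 hd2
    by_cases c1 : ∀ A, A ⊆ E → A.ncard + (insert e K₁).ncard + K₂.ncard ≤
        rk M₁ (A ∪ insert e K₁) + rk M₂ (A ∪ K₂)
    · obtain ⟨I₁, I₂, hI, hi1, hi2⟩ := ih (insert e K₁) K₂ (hK₁.insert e) hK₂
        (by rw [disjoint_insert_left]; exact ⟨heE, hd1.2⟩) hd2.2 c1
      refine ⟨insert e I₁, I₂, by rw [insert_union, hI], ?_, hi2⟩
      rw [insert_union, ← union_insert]; exact hi1
    by_cases c2 : ∀ A, A ⊆ E → A.ncard + K₁.ncard + (insert e K₂).ncard ≤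
        rk M₁ (A ∪ K₁) + rk M₂ (A ∪ insert e K₂)
    · obtain ⟨I₁, I₂, hI, hi1, hi2⟩ := ih K₁ (insert e K₂) hK₁ (hK₂.insert e)
        hd1.2 (by rw [disjoint_insert_left]; exact ⟨heE, hd2.2⟩) c2
      refine ⟨I₁, insert e I₂, by rw [union_insert, hI], hi1, ?_⟩
      rw [insert_union, ← union_insert]; exact hi2
    exfalso
    push Not at c1 c2
    obtain ⟨A, hA, hA'⟩ := c1
    obtain ⟨B, hB, hB'⟩ := c2
    have heA : e ∉ A := fun h => heE (hA h)
    have heB : e ∉ B := fun h => heE (hB h)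
    have hAf := hE.subset hA
    have hBf := hE.subset hB
    rw [ncard_insert_of_notMem hd1.1 hK₁] at hA'
    rw [ncard_insert_of_notMem hd2.1 hK₂] at hB'
    have s1 := rk_submod h1 (A ∪ insert e K₁) (B ∪ K₁)
    have s2 := rk_submod h2 (A ∪ K₂) (B ∪ insert e K₂)
    have g1 := h (A ∩ B) ((inter_subset_left.trans hA).trans (subset_insert _ _))
    have g2 := h (insert e (A ∪ B)) (insert_subset_insert (union_subset hA hB))
    have m1 : rk M₁ ((A ∩ B) ∪ K₁) ≤ rk M₁ ((A ∪ insert e K₁) ∩ (B ∪ K₁)) := by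
      apply rk_mono h1
      intro y hy
      rcases hy with ⟨hy1, hy2⟩ | hy
      · exact ⟨Or.inl hy1, Or.inl hy2⟩
      · exact ⟨Or.inr (Or.inr hy), Or.inr hy⟩
    have m2 : rk M₁ (insert e (A ∪ B) ∪ K₁) ≤ rk M₁ ((A ∪ insert e K₁) ∪ (B ∪ K₁)) := by
      apply rk_mono h1
      intro y hy
      rcases hy with (rfl | hy | hy) | hy
      · exact Or.inl (Or.inr (Or.inl rfl))
      · exact Or.inl (Or.inl hy)
      · exact Or.inr (Or.inl hy)
      · exact Or.inr (Or.inr hy)
    have m3 : rk M₂ ((A ∩ B) ∪ K₂) ≤ rk M₂ ((A ∪ K₂) ∩ (B ∪ insert e K₂)) := by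
      apply rk_mono h2
      intro y hy
      rcases hy with ⟨hy1, hy2⟩ | hy
      · exact ⟨Or.inl hy1, Or.inl hy2⟩
      · exact ⟨Or.inr hy, Or.inr (Or.inr hy)⟩
    have m4 : rk M₂ (insert e (A ∪ B) ∪ K₂) ≤ rk M₂ ((A ∪ K₂) ∪ (B ∪ insert e K₂)) := by
      apply rk_mono h2
      intro y hy
      rcases hy with (rfl | hy | hy) | hy
      · exact Or.inr (Or.inr (Or.inl rfl))
      · exact Or.inl (Or.inl hy)
      · exact Or.inr (Or.inl hy)
      · exact Or.inl (Or.inr hy)
    have c : (insert e (A ∪ B)).ncard = (A ∪ B).ncard + 1 :=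
      ncard_insert_of_notMem (by rintro (h | h); exacts [heA h, heB h]) (hAf.union hBf)
    have c' := ncard_union_add_ncard_inter A B hAf hBf
    omega

/-- `N` is the union of `M₁` and `M₂` -/
structure IsUnion (N M₁ M₂ : Matroid α) : Prop where
  fin : N.E.Finite
  e1 : M₁.E = N.E
  e2 : M₂.E = N.E
  indep : ∀ I, N.Indep I ↔ ∃ I₁ I₂, M₁.Indep I₁ ∧ M₂.Indep I₂ ∧ I = I₁ ∪ I₂

/-- full sets -/
def Full (N M₁ M₂ : Matroid α) (X : Set α) : Prop := rk N X = rk M₁ X + rk M₂ X

namespace IsUnion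

variable {N M₁ M₂ : Matroid α}

theorem symm (h : IsUnion N M₁ M₂) : IsUnion N M₂ M₁ where
  fin := h.fin
  e1 := h.e2
  e2 := h.e1
  indep := by
    intro I
    rw [h.indep]
    constructor
    · rintro ⟨I₁, I₂, h1, h2, rfl⟩
      exact ⟨I₂, I₁, h2, h1, union_comm _ _⟩
    · rintro ⟨I₁, I₂, h1, h2, rfl⟩
      exact ⟨I₂, I₁, h2, h1, union_comm _ _⟩

theorem fin1 (h : IsUnion N M₁ M₂) : M₁.E.Finite := h.e1 ▸ h.fin
theorem fin2 (h : IsUnion N M₁ M₂) : M₂.E.Finite := h.e2 ▸ h.fin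

theorem disj (h : IsUnion N M₁ M₂) {I : Set α} (hI : N.Indep I) :
    ∃ I₁ I₂, M₁.Indep I₁ ∧ M₂.Indep I₂ ∧ Disjoint I₁ I₂ ∧ I = I₁ ∪ I₂ := by
  obtain ⟨I₁, I₂, h1, h2, rfl⟩ := (h.indep I).1 hI
  exact ⟨I₁, I₂ \ I₁, h1, h2.subset sdiff_subset, disjoint_sdiff_right, by simp⟩

theorem ncard_eq (h : IsUnion N M₁ M₂) {I₁ I₂ : Set α} (h1 : M₁.Indep I₁) (h2 : M₂.Indep I₂)
    (hd : Disjoint I₁ I₂) : (I₁ ∪ I₂).ncard = I₁.ncard + I₂.ncard :=
  ncard_union_eq hd (h.fin1.subset h1.subset_ground) (h.fin2.subset h2.subset_ground)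

theorem rk_le (h : IsUnion N M₁ M₂) (X : Set α) : rk N X ≤ rk M₁ X + rk M₂ X := by
  obtain ⟨I, hI⟩ := N.exists_isBasis' X
  obtain ⟨I₁, I₂, h1, h2, hd, rfl⟩ := h.disj hI.indep
  rw [rk_basis' hI, h.ncard_eq h1 h2 hd]
  exact add_le_add (indep_le_rk h.fin1 h1 (subset_union_left.trans hI.subset))
    (indep_le_rk h.fin2 h2 (subset_union_right.trans hI.subset))

theorem circuit_rk (h : IsUnion N M₁ M₂) {C : Set α} (hC : N.IsCircuit C) :
    rk M₁ C + rk M₂ C + 1 = C.ncard := by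
  have hCf := h.fin.subset hC.subset_ground
  apply le_antisymm
  · -- by the partition lemma
    by_contra hcon
    push Not at hcon
    have key : ∀ A, A ⊆ C → A.ncard + (∅ : Set α).ncard + (∅ : Set α).ncard ≤
        rk M₁ (A ∪ ∅) + rk M₂ (A ∪ ∅) := by
      intro A hA
      rw [ncard_empty, union_empty, add_zero, add_zero]
      by_cases hAC : A = C
      · rw [hAC]; omega
      · have hAi : N.Indep A := hC.ssubset_indep ⟨hA, fun h' => hAC (Subset.antisymm hA h')⟩
        have := h.rk_le A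
        rw [rk_indep hAi] at this
        exact this
    obtain ⟨I₁, I₂, hI, hi1, hi2⟩ := partition h.fin1 h.fin2 hCf ∅ ∅ finite_empty finite_empty
      (by simp) (by simp) key
    rw [union_empty] at hi1 hi2
    exact hC.not_indep ((h.indep C).2 ⟨I₁, I₂, hi1, hi2, hI.symm⟩)
  · have h1 := rk_circuit h.fin hC
    have h2 := h.rk_le C
    omega

theorem full_circuit (h : IsUnion N M₁ M₂) {C : Set α} (hC : N.IsCircuit C) :
    Full N M₁ M₂ C := by
  have h1 := rk_circuit h.fin hC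
  have h2 := h.circuit_rk hC
  unfold Full
  omega

/-- both parts of a partition of `C \ {e}` are spanning in `C` -/
theorem circuit_parts (h : IsUnion N M₁ M₂) {C : Set α} (hC : N.IsCircuit C) {I₁ I₂ : Set α} {e : α}
    (he : e ∈ C) (h1 : M₁.Indep I₁) (h2 : M₂.Indep I₂) (hd : Disjoint I₁ I₂)
    (hU : I₁ ∪ I₂ = C \ {e}) : M₁.IsBasis I₁ C ∧ M₂.IsBasis I₂ C := by
  have hCf := h.fin.subset hC.subset_ground
  have e1 := h.circuit_rk hC
  have e2 := h.ncard_eq h1 h2 hd
  have e3 : (C \ {e}).ncard + 1 = C.ncard := ncard_sdiff_singleton_add_one he hCf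
  have s1 : I₁ ⊆ C := (subset_union_left.trans hU.subset).trans sdiff_subset
  have s2 : I₂ ⊆ C := (subset_union_right.trans hU.subset).trans sdiff_subset
  have l1 := indep_le_rk h.fin1 h1 s1
  have l2 := indep_le_rk h.fin2 h2 s2
  rw [hU] at e2
  exact ⟨basis_of_ncard h.fin1 h1 s1 (h.e1 ▸ hC.subset_ground) (by omega),
    basis_of_ncard h.fin2 h2 s2 (h.e2 ▸ hC.subset_ground) (by omega)⟩

/-- cyclic sets are full -/
theorem full_cyclic (h : IsUnion N M₁ M₂) {D : Set α} 
    (hD : ∀ f ∈ D, ∃ C, N.IsCircuit C ∧ f ∈ C ∧ C ⊆ D) : Full N M₁ M₂ D := by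
  have hDE : D ⊆ N.E := by
    intro f hf
    obtain ⟨C, hC, hfC, _⟩ := hD f hf
    exact hC.subset_ground hfC
  obtain ⟨J, hJ⟩ := N.exists_isBasis D
  obtain ⟨J₁, J₂, h1, h2, hd, hJe⟩ := h.disj hJ.indep
  have hJD : D ⊆ N.closure J := hJ.subset_closure
  -- fundamental circuits
  have fund : ∀ e ∈ D, e ∉ J → N.fundCircuit e J ⊆ M₁.closure J₁ ∧
      N.fundCircuit e J ⊆ M₂.closure J₂ := by
    intro e heD heJ
    have hC := hJ.indep.fundCircuit_isCircuit (hJD heD) heJ
    have heC : e ∈ N.fundCircuit e J := N.mem_fundCircuit e J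
    have hCJ : N.fundCircuit e J ⊆ insert e J := N.fundCircuit_subset_insert e J
    set C := N.fundCircuit e J with hCdef
    have hCe : (C ∩ J₁) ∪ (C ∩ J₂) = C \ {e} := by
      rw [← inter_union_distrib_left, ← hJe]
      ext y
      simp only [mem_inter_iff, mem_sdiff, mem_singleton_iff]
      constructor
      · rintro ⟨hy1, hy2⟩
        exact ⟨hy1, fun hye => heJ (hye ▸ hy2)⟩
      · rintro ⟨hy1, hy2⟩
        rcases hCJ hy1 with hy | hy
        · exact absurd hy hy2
        · exact ⟨hy1, hy⟩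
    obtain ⟨b1, b2⟩ := h.circuit_parts hC heC (h1.subset inter_subset_right)
      (h2.subset inter_subset_right) (hd.mono inter_subset_right inter_subset_right) hCe
    exact ⟨b1.subset_closure.trans (M₁.closure_subset_closure inter_subset_right),
      b2.subset_closure.trans (M₂.closure_subset_closure inter_subset_right)⟩
  have all : ∀ f ∈ D, f ∈ M₁.closure J₁ ∧ f ∈ M₂.closure J₂ := by
    intro f hf
    by_cases hfJ : f ∈ J
    · -- find e
      by_contra hcon
      have hno : ∀ e ∈ D, e ∉ J → f ∉ N.fundCircuit e J := by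
        intro e heD heJ hfC
        exact hcon ⟨(fund e heD heJ).1 hfC, (fund e heD heJ).2 hfC⟩
      obtain ⟨C, hC, hfC, hCD⟩ := hD f hf
      have hsub : C \ {f} ⊆ N.closure (J \ {f}) := by
        rintro y ⟨hyC, hyf⟩
        by_cases hyJ : y ∈ J
        · exact N.mem_closure_of_mem' ⟨hyJ, hyf⟩ (hDE (hCD hyC))
        · have hC' := hJ.indep.fundCircuit_isCircuit (hJD (hCD hyC)) hyJ
          have hyC' : y ∈ N.fundCircuit y J := N.mem_fundCircuit y J
          have := hC'.mem_closure_sdiff_singleton_of_mem hyC'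
          apply N.closure_subset_closure _ this
          rintro w ⟨hw1, hw2⟩
          rcases N.fundCircuit_subset_insert y J hw1 with hw | hw
          · exact absurd hw hw2
          · refine ⟨hw, ?_⟩
            rintro rfl
            exact hno y (hCD hyC) hyJ hw1
      have hfcl := hC.mem_closure_sdiff_singleton_of_mem hfC
      have := N.closure_subset_closure_of_subset_closure hsub hfcl
      exact hJ.indep.notMem_closure_sdiff_of_mem hfJ this
    · exact ⟨(fund f hf hfJ).1 (N.mem_fundCircuit f J), (fund f hf hfJ).2 (N.mem_fundCircuit f J)⟩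
  have hJ1 : J₁ ⊆ D := by rw [hJe] at hJ; exact subset_union_left.trans hJ.subset
  have hJ2 : J₂ ⊆ D := by rw [hJe] at hJ; exact subset_union_right.trans hJ.subset
  unfold Full
  rw [rk_basis hJ, hJe, h.ncard_eq h1 h2 hd,
    rk_eq_of_subset_closure h.fin1 hJ1 (fun f hf => (all f hf).1),
    rk_eq_of_subset_closure h.fin2 hJ2 (fun f hf => (all f hf).2), rk_indep h1, rk_indep h2]

/-- modular pairs of full sets -/
theorem full_inter (h : IsUnion N M₁ M₂) {X Y : Set α} (hX : Full N M₁ M₂ X)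
    (hY : Full N M₁ M₂ Y) (hXY : rk N X + rk N Y ≤ rk N (X ∩ Y) + rk N (X ∪ Y)) :
    Full N M₁ M₂ (X ∩ Y) := by
  unfold Full at *
  have s1 := rk_submod h.fin1 X Y
  have s2 := rk_submod h.fin2 X Y
  have l1 := h.rk_le (X ∩ Y)
  have l2 := h.rk_le (X ∪ Y)
  omega

/-- bases of a full set split to bases -/
theorem full_parts (h : IsUnion N M₁ M₂) {T J₁ J₂ : Set α} (hT : Full N M₁ M₂ T) (hTE : T ⊆ N.E)
    (h1 : M₁.Indep J₁) (h2 : M₂.Indep J₂) (s1 : J₁ ⊆ T) (s2 : J₂ ⊆ T)
    (hc : rk N T ≤ J₁.ncard + J₂.ncard) : M₁.IsBasis J₁ T ∧ M₂.IsBasis J₂ T := by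
  have l1 := indep_le_rk h.fin1 h1 s1
  have l2 := indep_le_rk h.fin2 h2 s2
  unfold Full at hT
  exact ⟨basis_of_ncard h.fin1 h1 s1 (h.e1 ▸ hTE) (by omega),
    basis_of_ncard h.fin2 h2 s2 (h.e2 ▸ hTE) (by omega)⟩

theorem contract (h : IsUnion N M₁ M₂) {T : Set α} (hTE : T ⊆ N.E) (hT : Full N M₁ M₂ T) :
    IsUnion (N.contract T) (M₁.contract T) (M₂.contract T) := by
  refine ⟨?_, ?_, ?_, ?_⟩
  · rw [Matroid.contract_ground]; exact h.fin.sdiff
  · rw [Matroid.contract_ground, Matroid.contract_ground, h.e1]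
  · rw [Matroid.contract_ground, Matroid.contract_ground, h.e2]
  · intro I
    obtain ⟨J, hJ⟩ := N.exists_isBasis T
    obtain ⟨J₁, J₂, h1, h2, hd, hJe⟩ := h.disj hJ.indep
    subst hJe
    obtain ⟨b1, b2⟩ := h.full_parts hT hTE h1 h2 (subset_union_left.trans hJ.subset)
      (subset_union_right.trans hJ.subset) (by rw [rk_basis hJ, h.ncard_eq h1 h2 hd])
    rw [hJ.contract_indep_iff]
    constructor
    · rintro ⟨hi, hTI⟩
      obtain ⟨I₁, I₂, g1, g2, gd, hIe⟩ := h.disj hi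
      have hTf : T.Finite := h.fin.subset hTE
      have k1 : (I₁ ∩ T) ∪ (I₂ ∩ T) = J₁ ∪ J₂ := by
        rw [← union_inter_distrib_right, ← hIe, union_inter_distrib_right, hTI.symm.inter_eq,
          empty_union, inter_eq_self_of_subset_left hJ.subset]
      have k2 := h.ncard_eq (g1.subset (inter_subset_left (t := T)))
        (g2.subset (inter_subset_left (t := T))) (gd.mono inter_subset_left inter_subset_left)
      rw [k1] at k2
      obtain ⟨c1, c2⟩ := h.full_parts hT hTE (g1.subset (inter_subset_left (t := T)))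
        (g2.subset (inter_subset_left (t := T))) inter_subset_right inter_subset_right
        (by rw [rk_basis hJ]; exact k2.le)
      refine ⟨I₁ \ T, I₂ \ T, ?_, ?_, ?_⟩
      · rw [c1.contract_indep_iff]
        exact ⟨by rw [sdiff_union_inter]; exact g1, disjoint_sdiff_right⟩
      · rw [c2.contract_indep_iff]
        exact ⟨by rw [sdiff_union_inter]; exact g2, disjoint_sdiff_right⟩
      · rw [← union_sdiff_distrib, ← hIe, union_sdiff_distrib, hTI.symm.sdiff_eq_left,
          sdiff_eq_empty.2 hJ.subset, union_empty]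
    · rintro ⟨I₁, I₂, g1, g2, rfl⟩
      rw [b1.contract_indep_iff] at g1
      rw [b2.contract_indep_iff] at g2
      refine ⟨(h.indep _).2 ⟨_, _, g1.1, g2.1, ?_⟩, ?_⟩
      · rw [union_union_union_comm]
      · rw [disjoint_union_right]; exact ⟨g1.2, g2.2⟩

theorem restrict (h : IsUnion N M₁ M₂) {R : Set α} (hR : R ⊆ N.E) :
    IsUnion (N.restrict R) (M₁.restrict R) (M₂.restrict R) := by
  refine ⟨h.fin.subset hR, rfl, rfl, ?_⟩
  intro I
  simp only [Matroid.restrict_indep_iff]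
  rw [h.indep]
  constructor
  · rintro ⟨⟨I₁, I₂, h1, h2, rfl⟩, hI⟩
    exact ⟨I₁, I₂, ⟨h1, subset_union_left.trans hI⟩, ⟨h2, subset_union_right.trans hI⟩, rfl⟩
  · rintro ⟨I₁, I₂, ⟨h1, s1⟩, ⟨h2, s2⟩, rfl⟩
    exact ⟨⟨I₁, I₂, h1, h2, rfl⟩, union_subset s1 s2⟩

end IsUnion

/-- modularity criterion -/
theorem rk_union_circuit {N : Matroid α} (hN : N.E.Finite) {X C : Set α} (hX : X ⊆ N.E)
    (hC : N.IsCircuit C) (hCX : ¬ C ⊆ X)
    (hmin : ∀ C', N.IsCircuit C' → C' ⊆ X ∪ C → ¬ C' ⊆ X → C \ X ⊆ C') :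
    rk N X + rk N C ≤ rk N (X ∩ C) + rk N (X ∪ C) := by
  have hCf : C.Finite := hN.subset hC.subset_ground
  obtain ⟨e, heC, heX⟩ := not_subset.1 hCX
  obtain ⟨J, hJ⟩ := N.exists_isBasis X
  have hJf : J.Finite := hN.subset hJ.indep.subset_ground
  set K := (C \ X) \ {e} with hK
  have hJK : Disjoint J K := by
    rw [disjoint_left]; intro y hy hyK; exact hyK.1.2 (hJ.subset hy)
  have hind : N.Indep (J ∪ K) := by
    by_contra hcon
    have hsub : J ∪ K ⊆ N.E := union_subset (hJ.subset.trans hX)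
      ((sdiff_subset.trans sdiff_subset).trans hC.subset_ground)
    obtain ⟨C', hC's, hC'⟩ := ((Matroid.not_indep_iff hsub).1 hcon).exists_isCircuit_subset
    by_cases hC'X : C' ⊆ X
    · apply hC'.not_indep
      apply hJ.indep.subset
      intro y hy
      rcases hC's hy with h | h
      · exact h
      · exact absurd (hC'X hy) h.1.2
    · have := hmin C' hC' (hC's.trans (union_subset_union hJ.subset (sdiff_subset.trans sdiff_subset))) hC'X
        (⟨heC, heX⟩ : e ∈ C \ X)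
      rcases hC's this with h | h
      · exact heX (hJ.subset h)
      · exact h.2 rfl
  have h1 : (J ∪ K).ncard ≤ rk N (X ∪ C) := indep_le_rk hN hind
    (union_subset_union hJ.subset (sdiff_subset.trans sdiff_subset))
  rw [ncard_union_eq hJK hJf (hCf.sdiff.sdiff)] at h1
  have h2 : K.ncard + 1 = (C \ X).ncard := ncard_sdiff_singleton_add_one ⟨heC, heX⟩ hCf.sdiff
  have h3 : rk N X = J.ncard := rk_basis hJ
  have h4 := rk_circuit hN hC
  have hi : N.Indep (X ∩ C) := by
    apply hC.ssubset_indep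
    refine ⟨inter_subset_right, fun h => heX (h heC).1⟩
  have h5 := rk_indep hi
  have h6 : (C ∩ X).ncard + (C \ X).ncard = C.ncard := ncard_inter_add_ncard_sdiff_eq_ncard C X hCf
  rw [inter_comm C X] at h6
  omega

end Pool.Agent.Recski
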